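import Mathlib

/-! Gaussian computations. -/

open Finset MeasureTheory ProbabilityTheory
open scoped ENNReal NNReal

namespace Pool.Agent.Work.MP_5c5849_an

/-- The standard Gaussian measure on `κ → ℝ`. -/
noncomputable abbrev gp (κ : Type*) [Fintype κ] : Measure (κ → ℝ) :=
  Measure.pi fun _ : κ => gaussianReal 0 1

/-- The law of a Gaussian matrix. -/
noncomputable abbrev gm (ι κ : Type*) [Fintype ι] [Fintype κ] : Measure (ι → κ → ℝ) :=
  Measure.pi fun _ : ι => gp κ

variable {ι κ : Type*} [Fintype ι] [Fintype κ]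

lemma mp_dot (v : κ → ℝ) (hv : ∑ k, v k ^ 2 = 1) :
    MeasurePreserving (fun x : κ → ℝ => x ⬝ᵥ v) (gp κ) (gaussianReal 0 1) := by
  have hm : Measurable (fun x : κ → ℝ => x ⬝ᵥ v) := by
    unfold dotProduct
    fun_prop
  refine ⟨hm, ?_⟩
  apply Measure.ext_of_charFun
  ext t
  rw [charFun_apply_real, integral_map hm.aemeasurable (by fun_prop), charFun_gaussianReal]
  have h1 : ∀ x : κ → ℝ, Complex.exp ((t : ℂ) * ((x ⬝ᵥ v : ℝ) : ℂ) * Complex.I) =
      ∏ k, Complex.exp (((t * v k : ℝ) : ℂ) * (x k : ℂ) * Complex.I) := by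
    intro x
    rw [← Complex.exp_sum]
    congr 1
    simp only [dotProduct, Complex.ofReal_sum, Complex.ofReal_mul, mul_sum, sum_mul]
    exact sum_congr rfl fun k _ => by ring
  simp only [h1]
  rw [integral_fintype_prod_eq_prod
    (f := fun k (x : ℝ) => Complex.exp (((t * v k : ℝ) : ℂ) * (x : ℂ) * Complex.I))]
  simp only [← charFun_apply_real, charFun_gaussianReal]
  rw [← Complex.exp_sum]
  congr 1
  have hv' : ∑ k, (v k : ℂ) ^ 2 = 1 := by exact_mod_cast hv
  simp only [Complex.ofReal_zero, mul_zero, zero_mul, NNReal.coe_one, Complex.ofReal_one, one_mul,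
    zero_sub, Complex.ofReal_mul, mul_pow]
  rw [sum_neg_distrib, ← sum_div, ← mul_sum, hv', mul_one]

lemma mp_rows (v : κ → ℝ) (hv : ∑ k, v k ^ 2 = 1) :
    MeasurePreserving (fun (g : ι → κ → ℝ) (i : ι) => g i ⬝ᵥ v) (gm ι κ) (gp ι) :=
  measurePreserving_pi _ _ fun _ => mp_dot v hv

lemma mp_transpose :
    MeasurePreserving (fun (g : ι → κ → ℝ) (k : κ) (i : ι) => g i k) (gm ι κ) (gm κ ι) := by
  refine ⟨by fun_prop, ?_⟩
  have h1 := Measure.infinitePi_map_curry_symm
    (fun (_ : ι) (_ : κ) => (gaussianReal 0 1 : Measure ℝ))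
  have h2 := Measure.infinitePi_map_curry
    (fun (_ : κ) (_ : ι) => (gaussianReal 0 1 : Measure ℝ))
  have h3 := (measurePreserving_piCongrLeft (fun _ : κ × ι => (gaussianReal 0 1 : Measure ℝ))
    (Equiv.prodComm ι κ)).map_eq
  simp only [Measure.infinitePi_eq_pi] at h1 h2
  unfold gm gp
  rw [← h2, ← h3, ← h1, Measure.map_map (by fun_prop) (by fun_prop),
    Measure.map_map (by fun_prop) (by fun_prop)]
  congr 1

lemma mp_cols (a : ι → ℝ) (ha : ∑ i, a i ^ 2 = 1) :
    MeasurePreserving (fun (g : ι → κ → ℝ) => ∑ i, a i • g i) (gm ι κ) (gp κ) := by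
  have h := (mp_rows (ι := κ) a ha).comp (mp_transpose (ι := ι) (κ := κ))
  convert h using 1
  funext g k
  simp only [Function.comp, dotProduct, Finset.sum_apply, Pi.smul_apply, smul_eq_mul, mul_comm]

lemma real_preimage_le {α β : Type*} [MeasurableSpace α] [MeasurableSpace β] {μ : Measure α}
    {ν : Measure β} [IsFiniteMeasure ν] {f : α → β} (hf : MeasurePreserving f μ ν) (s : Set β) :
    μ.real (f ⁻¹' s) ≤ ν.real s := by
  have h := Measure.le_map_apply hf.aemeasurable s
  rw [hf.map_eq] at h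
  exact ENNReal.toReal_mono (measure_ne_top _ _) h

lemma chernoff (f : ℝ → ℝ) {K : ℝ} (hf : Integrable (fun z => Real.exp (f z)) (gaussianReal 0 1))
    (hK : ∫ z, Real.exp (f z) ∂(gaussianReal 0 1) ≤ K) (t : ℝ) :
    (gp ι).real {z | t ≤ ∑ i, f (z i)} ≤ Real.exp (-t) * K ^ Fintype.card ι := by
  have e : (fun z : ι → ℝ => Real.exp (1 * ∑ i, f (z i))) = fun z => ∏ i, Real.exp (f (z i)) := by
    funext z
    rw [one_mul, Real.exp_sum]
  have h := measure_ge_le_exp_mul_mgf (μ := gp ι) (X := fun z => ∑ i, f (z i)) t zero_le_one (by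
    rw [e]
    exact Integrable.fintype_prod (f := fun _ z => Real.exp (f z)) fun _ => hf)
  refine h.trans ?_
  rw [neg_one_mul]
  refine mul_le_mul_of_nonneg_left ?_ (Real.exp_pos _).le
  unfold mgf
  rw [e, integral_fintype_prod_eq_pow (fun z => Real.exp (f z))]
  exact pow_le_pow_left₀ (integral_nonneg fun z => (Real.exp_pos _).le) hK _

lemma integral_exp_sq {b : ℝ} (hb : b < 1 / 2) :
    ∫ z, Real.exp (b * z ^ 2) ∂(gaussianReal 0 1) = Real.sqrt (1 / (1 - 2 * b)) := by
  rw [integral_gaussianReal_eq_integral_smul one_ne_zero]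
  have e : (fun x : ℝ => gaussianPDFReal 0 1 x • Real.exp (b * x ^ 2)) =
      fun x => (Real.sqrt (2 * Real.pi))⁻¹ * Real.exp (-(1 / 2 - b) * x ^ 2) := by
    funext x
    simp only [gaussianPDFReal, NNReal.coe_one, mul_one, sub_zero, smul_eq_mul]
    rw [mul_assoc, ← Real.exp_add]
    congr 2
    ring
  rw [e, integral_const_mul, integral_gaussian, ← Real.sqrt_inv, ← Real.sqrt_mul (by positivity)]
  congr 1
  have h1 : 1 / 2 - b ≠ 0 := by linarith
  have h2 : 1 - 2 * b ≠ 0 := by linarith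
  have := Real.pi_pos
  field_simp

lemma integrable_exp_sq {b : ℝ} (hb : b < 1 / 2) :
    Integrable (fun z => Real.exp (b * z ^ 2)) (gaussianReal 0 1) := by
  refine Integrable.of_integral_ne_zero ?_
  rw [integral_exp_sq hb]
  exact (Real.sqrt_pos.2 (div_pos one_pos (by linarith))).ne'

lemma tail_upper {τ b : ℝ} :
    (gp ι).real {z | b < ∑ i, max (z i ^ 2 - τ) 0} ≤
      Real.exp (-(b / 4)) * (1 + 3 / 2 * Real.exp (-(τ / 4))) ^ Fintype.card ι := by
  have hpt : ∀ z : ℝ, Real.exp (max (z ^ 2 - τ) 0 / 4) ≤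
      1 + Real.exp (-(τ / 4)) * Real.exp (1 / 4 * z ^ 2) := by
    intro z
    rcases le_total (z ^ 2 - τ) 0 with h | h
    · rw [max_eq_right h]
      simp only [zero_div, Real.exp_zero]
      exact le_add_of_nonneg_right (by positivity)
    · rw [max_eq_left h, ← Real.exp_add]
      have : (z ^ 2 - τ) / 4 = -(τ / 4) + 1 / 4 * z ^ 2 := by ring
      rw [this]
      linarith
  have hi2 : Integrable (fun z : ℝ => 1 + Real.exp (-(τ / 4)) * Real.exp (1 / 4 * z ^ 2))
      (gaussianReal 0 1) :=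
    (integrable_const 1).add ((integrable_exp_sq (by norm_num)).const_mul _)
  have hi : Integrable (fun z : ℝ => Real.exp (max (z ^ 2 - τ) 0 / 4)) (gaussianReal 0 1) := by
    refine hi2.mono' (Continuous.aestronglyMeasurable (by fun_prop)) (ae_of_all _ fun z => ?_)
    rw [Real.norm_eq_abs, abs_of_pos (Real.exp_pos _)]
    exact hpt z
  refine le_trans (measureReal_mono ?_) (chernoff (fun z => max (z ^ 2 - τ) 0 / 4) hi ?_ (b / 4))
  · intro z hz
    simp only [Set.mem_ofPred_eq] at hz ⊢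
    rw [← sum_div]
    linarith
  · refine (integral_mono hi hi2 hpt).trans ?_
    rw [integral_add (integrable_const 1) ((integrable_exp_sq (by norm_num)).const_mul _),
      integral_const_mul, integral_exp_sq (by norm_num)]
    have : Real.sqrt (1 / (1 - 2 * (1 / 4))) ≤ 3 / 2 := by
      rw [Real.sqrt_le_left (by norm_num)]
      norm_num
    have h2 := mul_le_mul_of_nonneg_left this (Real.exp_pos (-(τ / 4))).le
    simp only [integral_const, probReal_univ, smul_eq_mul, mul_one]
    linarith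

lemma tail_lower {b : ℝ} :
    (gp ι).real {z | ∑ i, z i ^ 2 < b} ≤ Real.exp (3 / 2 * b) * (1 / 2) ^ Fintype.card ι := by
  have h := chernoff (ι := ι) (fun z => -(3 / 2) * z ^ 2) (K := 1 / 2)
    (integrable_exp_sq (by norm_num)) (by
      rw [integral_exp_sq (by norm_num), Real.sqrt_le_left (by norm_num)]
      norm_num) (-(3 / 2 * b))
  rw [neg_neg] at h
  refine le_trans (measureReal_mono ?_) h
  intro z hz
  simp only [Set.mem_ofPred_eq] at hz ⊢
  rw [← mul_sum]
  linarith

lemma gauss_tail_ge {t : ℝ} (ht : 0 ≤ t) :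
    Real.exp (-t ^ 2) / 9 ≤ (gaussianReal 0 1).real {z | t ≤ |z|} := by
  have h1 : (gaussianReal 0 1).real (Set.Icc t (t + 1)) ≤
      (gaussianReal 0 1).real {z | t ≤ |z|} :=
    measureReal_mono fun z hz => hz.1.trans (le_abs_self z)
  refine le_trans ?_ h1
  rw [Measure.real, gaussianReal_apply_eq_integral _ one_ne_zero,
    ENNReal.toReal_ofReal (integral_nonneg fun z => gaussianPDFReal_nonneg _ _ _)]
  have h2 : ∫ _x in Set.Icc t (t + 1), Real.exp (-t ^ 2) / 9 ≤
      ∫ x in Set.Icc t (t + 1), gaussianPDFReal 0 1 x := by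
    refine setIntegral_mono_on (integrableOn_const (by simp))
      (integrable_gaussianPDFReal _ _).integrableOn measurableSet_Icc fun x hx => ?_
    simp only [gaussianPDFReal, NNReal.coe_one, mul_one, sub_zero]
    have h3 : Real.sqrt (2 * Real.pi) ≤ 3 := by
      rw [Real.sqrt_le_left (by norm_num)]
      have := Real.pi_le_four
      linarith
    have h4 : 0 < Real.sqrt (2 * Real.pi) := Real.sqrt_pos.2 (by have := Real.pi_pos; positivity)
    have h5 : (3 : ℝ)⁻¹ ≤ (Real.sqrt (2 * Real.pi))⁻¹ := inv_anti₀ h4 h3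
    have h6 : Real.exp (-t ^ 2) * (3 : ℝ)⁻¹ ≤ Real.exp (-x ^ 2 / 2) := by
      have h7 : (3 : ℝ)⁻¹ ≤ Real.exp (-1) := by
        rw [Real.exp_neg]
        exact inv_anti₀ (Real.exp_pos 1) (by have := Real.exp_one_lt_d9; linarith)
      refine (mul_le_mul_of_nonneg_left h7 (Real.exp_pos _).le).trans ?_
      rw [← Real.exp_add, Real.exp_le_exp]
      have h8 : x ^ 2 ≤ (t + 1) ^ 2 := pow_le_pow_left₀ (ht.trans hx.1) hx.2 2
      nlinarith [sq_nonneg (t - 1)]
    calc Real.exp (-t ^ 2) / 9 = (3 : ℝ)⁻¹ * (Real.exp (-t ^ 2) * (3 : ℝ)⁻¹) := by ring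
      _ ≤ _ := mul_le_mul h5 h6 (by positivity) (by positivity)
  simpa using h2

lemma tail_count {t s : ℝ} (ht : 0 ≤ t) :
    (gp ι).real {z | ∑ i, (if t ≤ |z i| then (1 : ℝ) else 0) < s} ≤
      Real.exp s * Real.exp (-(Real.exp (-t ^ 2) / 18)) ^ Fintype.card ι := by
  have hms : MeasurableSet {z : ℝ | t ≤ |z|} :=
    measurableSet_le measurable_const (by fun_prop)
  have hpt : ∀ z : ℝ, Real.exp (-(if t ≤ |z| then (1 : ℝ) else 0)) ≤
      1 - (1 / 2) * Set.indicator {z : ℝ | t ≤ |z|} (fun _ => (1 : ℝ)) z := by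
    intro z
    by_cases h : t ≤ |z|
    · rw [if_pos h, Set.indicator_of_mem (by exact h), Real.exp_neg]
      have : (Real.exp 1)⁻¹ ≤ 2⁻¹ := inv_anti₀ two_pos (by have := Real.exp_one_gt_d9; linarith)
      linarith
    · rw [if_neg h, Set.indicator_of_notMem (by exact h)]
      simp
  have hi3 : Integrable (Set.indicator {z : ℝ | t ≤ |z|} (fun _ => (1 : ℝ))) (gaussianReal 0 1) :=
    (integrable_const 1).indicator hms
  have hi2 : Integrable
      (fun z => 1 - (1 / 2) * Set.indicator {z : ℝ | t ≤ |z|} (fun _ => (1 : ℝ)) z)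
      (gaussianReal 0 1) := (integrable_const 1).sub (hi3.const_mul _)
  have hi : Integrable (fun z : ℝ => Real.exp (-(if t ≤ |z| then (1 : ℝ) else 0)))
      (gaussianReal 0 1) := by
    refine hi2.mono' (Measurable.aestronglyMeasurable ?_) (ae_of_all _ fun z => ?_)
    · exact (Measurable.ite hms measurable_const measurable_const).neg.exp
    · rw [Real.norm_eq_abs, abs_of_pos (Real.exp_pos _)]
      exact hpt z
  have h := chernoff (ι := ι) (fun z => -(if t ≤ |z| then (1 : ℝ) else 0))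
    (K := Real.exp (-(Real.exp (-t ^ 2) / 18))) hi ?_ (-s)
  · rw [neg_neg] at h
    refine le_trans (measureReal_mono ?_) h
    intro z hz
    simp only [Set.mem_ofPred_eq] at hz ⊢
    rw [sum_neg_distrib]
    linarith
  · refine (integral_mono hi hi2 hpt).trans ?_
    rw [integral_sub (integrable_const 1) (hi3.const_mul _), integral_const_mul,
      integral_indicator_const _ hms]
    simp only [integral_const, probReal_univ, smul_eq_mul, mul_one]
    have h1 := gauss_tail_ge ht
    have h2 := Real.add_one_le_exp (-(Real.exp (-t ^ 2) / 18))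
    linarith

end Pool.Agent.Work.MP_5c5849_an
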