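import Pool.Agent.Work.MP_5c5849_an.Det

/-! Deterministic consequences of the net events. -/

open Finset

namespace Pool.Agent.Work.MP_5c5849_an

variable {ι κ : Type*} [Fintype κ]

lemma sum_add_sq_le {τ : Type*} (t : Finset τ) (f g : τ → ℝ) {a b : ℝ} (ha : 0 ≤ a)
    (hb : 0 ≤ b) (hf : ∑ i ∈ t, f i ^ 2 ≤ a ^ 2) (hg : ∑ i ∈ t, g i ^ 2 ≤ b ^ 2) :
    ∑ i ∈ t, (f i + g i) ^ 2 ≤ (a + b) ^ 2 := by
  have h := sum_mul_le_of_sq t f g ha hb hf hg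
  have e : ∑ i ∈ t, (f i + g i) ^ 2 =
      ∑ i ∈ t, f i ^ 2 + 2 * ∑ i ∈ t, f i * g i + ∑ i ∈ t, g i ^ 2 := by
    rw [mul_sum, ← sum_add_distrib, ← sum_add_distrib]
    exact sum_congr rfl fun i _ => by ring
  rw [e]
  nlinarith

lemma exists_unit (v : κ → ℝ) :
    v = 0 ∨ ∃ r : ℝ, 0 < r ∧ r ^ 2 = ∑ k, v k ^ 2 ∧ ∃ x : κ → ℝ, ∑ k, x k ^ 2 = 1 ∧ v = r • x := by
  have h0 : 0 ≤ ∑ k, v k ^ 2 := sum_nonneg fun k _ => sq_nonneg _
  rcases h0.eq_or_lt with h | h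
  · left
    funext k
    have := (sum_eq_zero_iff_of_nonneg fun k _ => sq_nonneg (v k)).1 h.symm k (mem_univ k)
    exact pow_eq_zero_iff two_ne_zero |>.1 this
  · right
    have hr : 0 < Real.sqrt (∑ k, v k ^ 2) := Real.sqrt_pos.2 h
    refine ⟨Real.sqrt (∑ k, v k ^ 2), hr, Real.sq_sqrt h0,
      fun k => v k / Real.sqrt (∑ k, v k ^ 2), ?_, ?_⟩
    · simp only [div_pow]
      rw [← sum_div, Real.sq_sqrt h0, div_self h.ne']
    · funext k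
      simp only [Pi.smul_apply, smul_eq_mul]
      rw [mul_div_cancel₀ _ hr.ne']

lemma sum_dot_sq_le_of_unit (g : ι → κ → ℝ) (S : Finset ι) {K : ℝ}
    (h : ∀ x : κ → ℝ, ∑ k, x k ^ 2 = 1 → ∑ i ∈ S, (g i ⬝ᵥ x) ^ 2 ≤ K) (v : κ → ℝ) :
    ∑ i ∈ S, (g i ⬝ᵥ v) ^ 2 ≤ K * ∑ k, v k ^ 2 := by
  rcases exists_unit v with rfl | ⟨r, hr, hr2, x, hx, rfl⟩
  · simp
  · rw [← hr2]
    simp only [dotProduct_smul, smul_eq_mul, mul_pow]
    rw [← mul_sum, mul_comm]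
    exact mul_le_mul_of_nonneg_right (h x hx) (sq_nonneg _)

lemma upper_of_net (g : ι → κ → ℝ) (S : Finset ι) (s : Finset (κ → ℝ)) {β : ℝ} (hβ : 0 ≤ β)
    (hnet : ∀ x : κ → ℝ, ∑ k, x k ^ 2 = 1 → ∃ c ∈ s, ∑ k, (x k - c k) ^ 2 ≤ (1 / 2) ^ 2)
    (hs : ∀ c ∈ s, ∑ i ∈ S, (g i ⬝ᵥ c) ^ 2 ≤ β) (v : κ → ℝ) :
    ∑ i ∈ S, (g i ⬝ᵥ v) ^ 2 ≤ 4 * β * ∑ k, v k ^ 2 := by
  set Z : Set ℝ := {z | ∃ x : κ → ℝ, ∑ k, x k ^ 2 = 1 ∧ z = Real.sqrt (∑ i ∈ S, (g i ⬝ᵥ x) ^ 2)}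
    with hZ
  have hbdd : BddAbove Z := by
    refine ⟨Real.sqrt (∑ i ∈ S, ∑ k, g i k ^ 2), ?_⟩
    rintro _ ⟨x, hx, rfl⟩
    refine Real.sqrt_le_sqrt (sum_le_sum fun i _ => ?_)
    have := sum_mul_sq_le_sq_mul_sq univ (g i) x
    rwa [hx, mul_one] at this
  set M := sSup Z with hM
  have hM0 : 0 ≤ M := Real.sSup_nonneg (by
    rintro _ ⟨x, hx, rfl⟩
    exact Real.sqrt_nonneg _)
  have h1 : ∀ x : κ → ℝ, ∑ k, x k ^ 2 = 1 → ∑ i ∈ S, (g i ⬝ᵥ x) ^ 2 ≤ M ^ 2 := by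
    intro x hx
    have : Real.sqrt (∑ i ∈ S, (g i ⬝ᵥ x) ^ 2) ≤ M := le_csSup hbdd ⟨x, hx, rfl⟩
    exact (Real.sqrt_le_left hM0).1 this
  have h2 : M ≤ Real.sqrt β + M / 2 := by
    refine Real.sSup_le ?_ (by positivity)
    rintro _ ⟨x, hx, rfl⟩
    obtain ⟨c, hc, hxc⟩ := hnet x hx
    rw [Real.sqrt_le_left (by positivity)]
    have e : ∀ i, g i ⬝ᵥ x = g i ⬝ᵥ c + g i ⬝ᵥ (x - c) := fun i => by
      rw [dotProduct_sub]
      ring
    simp only [e]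
    refine sum_add_sq_le S _ _ (Real.sqrt_nonneg _) (by positivity) ?_ ?_
    · rw [Real.sq_sqrt hβ]
      exact hs c hc
    · refine (sum_dot_sq_le_of_unit g S h1 (x - c)).trans ?_
      have := mul_le_mul_of_nonneg_left hxc (sq_nonneg M)
      simp only [Pi.sub_apply]
      linarith
  refine sum_dot_sq_le_of_unit g S (fun x hx => (h1 x hx).trans ?_) v
  have h3 : M ≤ 2 * Real.sqrt β := by linarith
  have h4 := pow_le_pow_left₀ hM0 h3 2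
  rw [mul_pow, Real.sq_sqrt hβ] at h4
  linarith

/-- Upper bound for all sub-collections. -/
def Upper (g : ι → κ → ℝ) (τ b : ℝ) : Prop :=
  ∀ (S : Finset ι) (v : κ → ℝ), ∑ i ∈ S, (g i ⬝ᵥ v) ^ 2 ≤ 4 * (S.card * τ + b) * ∑ k, v k ^ 2

lemma upper_of_event [Fintype ι] (g : ι → κ → ℝ) (s : Finset (κ → ℝ)) {τ b : ℝ} (hτ : 0 ≤ τ)
    (hb : 0 ≤ b)
    (hnet : ∀ x : κ → ℝ, ∑ k, x k ^ 2 = 1 → ∃ c ∈ s, ∑ k, (x k - c k) ^ 2 ≤ (1 / 2) ^ 2)
    (hs : ∀ c ∈ s, ∑ i, max ((g i ⬝ᵥ c) ^ 2 - τ) 0 ≤ b) : Upper g τ b := by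
  intro S v
  refine upper_of_net g S s (by positivity) hnet (fun c hc => ?_) v
  calc ∑ i ∈ S, (g i ⬝ᵥ c) ^ 2 ≤ ∑ i ∈ S, (τ + max ((g i ⬝ᵥ c) ^ 2 - τ) 0) :=
        sum_le_sum fun i _ => by
          have := le_max_left ((g i ⬝ᵥ c) ^ 2 - τ) 0
          linarith
    _ = S.card * τ + ∑ i ∈ S, max ((g i ⬝ᵥ c) ^ 2 - τ) 0 := by
        rw [sum_add_distrib, sum_const, nsmul_eq_mul]
    _ ≤ S.card * τ + b := by
        refine add_le_add le_rfl (le_trans ?_ (hs c hc))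
        exact sum_le_sum_of_subset_of_nonneg (subset_univ _) fun i _ _ => le_max_right _ _

/-- Few large coordinates. -/
def Few (g : ι → κ → ℝ) (s : ℕ) (θ : ℝ) : Prop :=
  ∀ v : κ → ℝ, ∃ I : Finset ι, I.card < s ∧ (∀ i ∉ I, (g i ⬝ᵥ v) ^ 2 ≤ θ ^ 2 * ∑ k, v k ^ 2) ∧
    ∑ i ∈ I, (g i ⬝ᵥ v) ^ 2 ≤ θ ^ 2 * s * ∑ k, v k ^ 2

lemma few_of_upper [Fintype ι] {g : ι → κ → ℝ} {τ b θ : ℝ} {s : ℕ} (hU : Upper g τ b)
    (hτ : 0 ≤ τ) (hs : 0 < s) (hθ : 4 * (s * τ + b) ≤ θ ^ 2 * s) : Few g s θ := by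
  classical
  intro v
  have hv : 0 ≤ ∑ k, v k ^ 2 := sum_nonneg fun k _ => sq_nonneg _
  set I : Finset ι := univ.filter fun i => θ ^ 2 * ∑ k, v k ^ 2 < (g i ⬝ᵥ v) ^ 2 with hI
  have hcard : I.card < s := by
    by_contra hc
    obtain ⟨S, hSI, hS⟩ := exists_subset_card_eq (not_lt.1 hc)
    have hne : S.Nonempty := card_pos.1 (by omega)
    have h1 : ∑ _i ∈ S, θ ^ 2 * ∑ k, v k ^ 2 < ∑ i ∈ S, (g i ⬝ᵥ v) ^ 2 :=
      sum_lt_sum_of_nonempty hne fun i hi => (mem_filter.1 (hSI hi)).2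
    rw [sum_const, nsmul_eq_mul, hS] at h1
    have h2 := hU S v
    rw [hS] at h2
    have h3 := mul_le_mul_of_nonneg_right hθ hv
    linarith
  refine ⟨I, hcard, fun i hi => ?_, (hU I v).trans ?_⟩
  · by_contra hc
    exact hi (mem_filter.2 ⟨mem_univ _, not_le.1 hc⟩)
  · refine mul_le_mul_of_nonneg_right (le_trans ?_ hθ) hv
    have : (I.card : ℝ) ≤ s := by exact_mod_cast hcard.le
    nlinarith

lemma nsq_comb_le {τ : Type*} [Fintype τ] (g : τ → κ → ℝ) {K : ℝ} (hK : 0 ≤ K)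
    (h : ∀ v : κ → ℝ, ∑ i, (g i ⬝ᵥ v) ^ 2 ≤ K * ∑ k, v k ^ 2) (a : τ → ℝ) :
    ∑ k, (∑ i, a i • g i) k ^ 2 ≤ K * ∑ i, a i ^ 2 := by
  set v := ∑ i, a i • g i with hv
  have h0 : 0 ≤ ∑ k, v k ^ 2 := sum_nonneg fun k _ => sq_nonneg _
  have ha : 0 ≤ ∑ i, a i ^ 2 := sum_nonneg fun k _ => sq_nonneg _
  have e : ∑ k, v k ^ 2 = ∑ i, a i * (g i ⬝ᵥ v) := by
    have : ∑ k, v k ^ 2 = v ⬝ᵥ (∑ i, a i • g i) := by
      rw [← hv]
      simp only [dotProduct, sq]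
    rw [this, dot_sum_smul]
    simp only [dotProduct_comm v]
  have h1 := sum_mul_sq_le_sq_mul_sq univ a (fun i => g i ⬝ᵥ v)
  rw [← e] at h1
  have h2 := h1.trans (mul_le_mul_of_nonneg_left (h v) ha)
  rcases h0.eq_or_lt with h3 | h3
  · rw [← h3]
    positivity
  · refine le_of_mul_le_mul_right ?_ h3
    nlinarith

lemma lower_of_net {τ : Type*} [Fintype τ] (g : τ → κ → ℝ) (s : Finset (τ → ℝ)) {n : ℝ}
    (hn : 0 ≤ n) (h : ∀ v : κ → ℝ, ∑ i, (g i ⬝ᵥ v) ^ 2 ≤ 81 * n * ∑ k, v k ^ 2)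
    (hnet : ∀ x : τ → ℝ, ∑ k, x k ^ 2 = 1 → ∃ c ∈ s, ∑ k, (x k - c k) ^ 2 ≤ (1 / 36) ^ 2)
    (hs : ∀ c ∈ s, n / 4 ≤ ∑ k, (∑ i, c i • g i) k ^ 2) (a : τ → ℝ) :
    n * ∑ i, a i ^ 2 ≤ 16 * ∑ k, (∑ i, a i • g i) k ^ 2 := by
  have hunit : ∀ x : τ → ℝ, ∑ k, x k ^ 2 = 1 → n ≤ 16 * ∑ k, (∑ i, x i • g i) k ^ 2 := by
    intro x hx
    obtain ⟨c, hc, hxc⟩ := hnet x hx
    have h0 : 0 ≤ ∑ k, (∑ i, x i • g i) k ^ 2 := sum_nonneg fun k _ => sq_nonneg _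
    have h1 := nsq_comb_le g (by positivity) h (c - x)
    have h2 : ∑ i, (c - x) i ^ 2 ≤ (1 / 36) ^ 2 := by
      refine le_trans (le_of_eq (sum_congr rfl fun i _ => ?_)) hxc
      simp only [Pi.sub_apply]
      ring
    have h3 : ∑ k, (∑ i, (c - x) i • g i) k ^ 2 ≤ (Real.sqrt n / 4) ^ 2 := by
      rw [div_pow, Real.sq_sqrt hn]
      have := mul_le_mul_of_nonneg_left h2 (by positivity : 0 ≤ 81 * n)
      linarith
    have h4 := sum_add_sq_le univ (fun k => (∑ i, x i • g i) k)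
      (fun k => (∑ i, (c - x) i • g i) k) (Real.sqrt_nonneg _) (by positivity)
      (Real.sq_sqrt h0).ge h3
    have e : ∀ k, (∑ i, x i • g i) k + (∑ i, (c - x) i • g i) k = (∑ i, c i • g i) k := by
      intro k
      simp only [Finset.sum_apply, Pi.smul_apply, smul_eq_mul, Pi.sub_apply]
      rw [← sum_add_distrib]
      exact sum_congr rfl fun i _ => by ring
    simp only [e] at h4
    have h5 := (hs c hc).trans h4
    set r := Real.sqrt (∑ k, (∑ i, x i • g i) k ^ 2) with hr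
    have hr0 : 0 ≤ r := Real.sqrt_nonneg _
    have hr2 : r ^ 2 = ∑ k, (∑ i, x i • g i) k ^ 2 := Real.sq_sqrt h0
    set t := Real.sqrt n with ht
    have ht0 : 0 ≤ t := Real.sqrt_nonneg _
    have ht2 : t ^ 2 = n := Real.sq_sqrt hn
    rw [← hr2, ← ht2]
    rw [← ht2] at h5
    have h6 : t / 2 ≤ r + t / 4 := by
      refine le_trans (le_abs_self _) (abs_le_of_sq_le_sq ?_ (by positivity))
      linarith
    nlinarith
  rcases exists_unit a with rfl | ⟨r, hr, hr2, x, hx, rfl⟩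
  · simp
  · rw [← hr2]
    have e : ∑ k, (∑ i, (r • x) i • g i) k ^ 2 = r ^ 2 * ∑ k, (∑ i, x i • g i) k ^ 2 := by
      rw [mul_sum]
      refine sum_congr rfl fun k _ => ?_
      rw [← mul_pow]
      congr 1
      simp only [Finset.sum_apply, Pi.smul_apply, smul_eq_mul]
      rw [mul_sum]
      exact sum_congr rfl fun i _ => by ring
    rw [e]
    have := mul_le_mul_of_nonneg_left (hunit x hx) (sq_nonneg r)
    linarith

/-- Lower restricted isometry property. -/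
def Lower (g : ι → κ → ℝ) (s : ℕ) (n : ℝ) : Prop :=
  ∀ T : Finset ι, T.card < s → ∀ a : T → ℝ,
    n * ∑ i, a i ^ 2 ≤ 16 * ∑ k, (∑ i : T, a i • g i) k ^ 2

lemma ker_of_lower [Fintype ι] {g : ι → κ → ℝ} {θ n : ℝ} {s : ℕ} (hF : Few g s θ)
    (hL : Lower g s n) (hn : 0 < n) (hθ : 0 ≤ θ) (hs : 0 < s)
    (hθn : 2 ≤ s → θ ^ 2 * s ≤ 136 * n) (a : ι → ℝ) (ha : ∑ i, a i • g i = 0) :
    s * ∑ i, a i ^ 2 ≤ 94 ^ 2 * (∑ i, |a i|) ^ 2 := by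
  classical
  set σ := ∑ i, |a i| with hσ
  have hσ0 : 0 ≤ σ := sum_nonneg fun i _ => abs_nonneg _
  have hs' : (0 : ℝ) < s := by exact_mod_cast hs
  set T : Finset ι := univ.filter fun i => σ < s * |a i| with hT
  have hoff : ∀ i ∉ T, s * |a i| ≤ σ := fun i hi => by
    by_contra hc
    exact hi (mem_filter.2 ⟨mem_univ _, not_le.1 hc⟩)
  have h1 : s * ∑ i ∈ Tᶜ, a i ^ 2 ≤ σ ^ 2 := by
    rw [mul_sum]
    calc ∑ i ∈ Tᶜ, s * a i ^ 2 ≤ ∑ i ∈ Tᶜ, σ * |a i| := by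
          refine sum_le_sum fun i hi => ?_
          rw [← sq_abs, sq, ← mul_assoc]
          exact mul_le_mul_of_nonneg_right (hoff i (mem_compl.1 hi)) (abs_nonneg _)
      _ ≤ ∑ i, σ * |a i| :=
          sum_le_sum_of_subset_of_nonneg (subset_univ _) fun i _ _ => by positivity
      _ = σ ^ 2 := by rw [← mul_sum, sq]
  have h2 : s * ∑ i ∈ T, a i ^ 2 ≤ 8704 * σ ^ 2 := by
    rcases T.eq_empty_or_nonempty with hTe | hTe
    · rw [hTe]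
      simp only [sum_empty, mul_zero]
      positivity
    have hcard : T.card < s := by
      have h3 : ∑ _i ∈ T, σ < ∑ i ∈ T, s * |a i| :=
        sum_lt_sum_of_nonempty hTe fun i hi => (mem_filter.1 hi).2
      rw [sum_const, nsmul_eq_mul, ← mul_sum] at h3
      have h4 : ∑ i ∈ T, |a i| ≤ σ :=
        sum_le_sum_of_subset_of_nonneg (subset_univ _) fun i _ _ => abs_nonneg _
      have h5 : (T.card : ℝ) * σ < s * σ := h3.trans_le (mul_le_mul_of_nonneg_left h4 hs'.le)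
      exact_mod_cast lt_of_mul_lt_mul_right h5 hσ0
    have hs2 : 2 ≤ s := by
      have := card_pos.2 hTe
      omega
    set v := ∑ i ∈ T, a i • g i with hv
    have hv0 : 0 ≤ ∑ k, v k ^ 2 := sum_nonneg fun k _ => sq_nonneg _
    set r := Real.sqrt (∑ k, v k ^ 2) with hr
    have hr0 : 0 ≤ r := Real.sqrt_nonneg _
    have hr2 : r ^ 2 = ∑ k, v k ^ 2 := Real.sq_sqrt hv0
    have hlow := hL T hcard (fun i => a i)
    rw [sum_coe_sort T (fun i => a i ^ 2), sum_coe_sort T (fun i => a i • g i), ← hv,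
      ← hr2] at hlow
    obtain ⟨I, hI1, hI2, hI3⟩ := hF v
    rw [← hr2] at hI2 hI3
    have e1 : r ^ 2 = ∑ i ∈ Tᶜ, (-a i) * (g i ⬝ᵥ v) := by
      have e2 : v = ∑ i ∈ Tᶜ, (-a i) • g i := by
        rw [← sum_add_sum_compl T, ← hv] at ha
        simp only [neg_smul, sum_neg_distrib]
        exact eq_neg_of_add_eq_zero_left ha
      have e3 : ∑ k, v k ^ 2 = (∑ i ∈ Tᶜ, (-a i) • g i) ⬝ᵥ v := by
        rw [← e2]
        simp only [dotProduct, sq]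
      rw [hr2, e3, sum_dotProduct]
      simp only [smul_dotProduct, smul_eq_mul]
    have h3 : ∑ i ∈ Tᶜ \ I, (-a i) * (g i ⬝ᵥ v) ≤ σ * (θ * r) := by
      calc ∑ i ∈ Tᶜ \ I, (-a i) * (g i ⬝ᵥ v) ≤ ∑ i ∈ Tᶜ \ I, |a i| * (θ * r) := by
            refine sum_le_sum fun i hi => (le_abs_self _).trans ?_
            rw [abs_mul, abs_neg]
            refine mul_le_mul_of_nonneg_left (abs_le_of_sq_le_sq ?_ (by positivity))
              (abs_nonneg _)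
            rw [mul_pow]
            exact hI2 i (mem_sdiff.1 hi).2
        _ ≤ ∑ i, |a i| * (θ * r) :=
            sum_le_sum_of_subset_of_nonneg (subset_univ _) fun i _ _ => by positivity
        _ = σ * (θ * r) := by rw [← sum_mul]
    have h4 : ∑ i ∈ Tᶜ ∩ I, (-a i) * (g i ⬝ᵥ v) ≤ σ * (θ * r) := by
      have hq : 0 < Real.sqrt s := Real.sqrt_pos.2 hs'
      have hq2 : Real.sqrt s ^ 2 = s := Real.sq_sqrt hs'.le
      have h5 := sum_mul_le_of_sq (Tᶜ ∩ I) (fun i => -a i) (fun i => g i ⬝ᵥ v)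
        (a := σ / Real.sqrt s) (b := θ * r * Real.sqrt s) (by positivity) (by positivity) ?_ ?_
      · refine h5.trans (le_of_eq ?_)
        field_simp
      · rw [div_pow, hq2, le_div_iff₀ hs', mul_comm]
        refine le_trans (mul_le_mul_of_nonneg_left ?_ hs'.le) h1
        simp only [neg_sq]
        exact sum_le_sum_of_subset_of_nonneg inter_subset_left fun i _ _ => sq_nonneg _
      · rw [mul_pow, mul_pow, hq2]
        refine le_trans ?_ (hI3.trans (le_of_eq (by ring)))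
        exact sum_le_sum_of_subset_of_nonneg inter_subset_right fun i _ _ => sq_nonneg _
    have h5 : r ^ 2 ≤ 2 * σ * θ * r := by
      rw [e1, ← sum_inter_add_sum_sdiff Tᶜ I]
      linarith
    have h6 : r ≤ 2 * σ * θ := by
      rcases hr0.eq_or_lt with h | h
      · rw [← h]
        positivity
      · refine le_of_mul_le_mul_right ?_ h
        linarith
    have h7 : r ^ 2 ≤ (2 * σ * θ) ^ 2 := pow_le_pow_left₀ hr0 h6 2
    have h8 := hθn hs2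
    refine le_of_mul_le_mul_left ?_ hn
    have h9 := mul_le_mul_of_nonneg_left hlow hs'.le
    have h10 := mul_le_mul_of_nonneg_left h7 hs'.le
    have h11 := mul_le_mul_of_nonneg_left h8 (sq_nonneg σ)
    nlinarith
  rw [← sum_add_sum_compl T, mul_add]
  have := sq_nonneg σ
  linarith

lemma exists_large_of_net [Fintype ι] {g : ι → κ → ℝ} {θ t : ℝ} {s : ℕ} (hF : Few g s θ)
    (hθ : 0 ≤ θ) (w : Finset (κ → ℝ))
    (hnet : ∀ x : κ → ℝ, ∑ k, x k ^ 2 = 1 → ∃ c ∈ w, ∑ k, (x k - c k) ^ 2 ≤ (1 / 100) ^ 2)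
    (hw : ∀ c ∈ w, (s : ℝ) ≤ ∑ i, if t ≤ |g i ⬝ᵥ c| then 1 else 0) {l : ℝ} (hl0 : 0 ≤ l)
    (hl : l + θ / 100 ≤ t) (x : κ → ℝ) (hx : ∀ i, |g i ⬝ᵥ x| ≤ 1) :
    l ^ 2 * ∑ k, x k ^ 2 ≤ 1 := by
  classical
  rcases exists_unit x with rfl | ⟨r, hr, hr2, y, hy, rfl⟩
  · simp
  obtain ⟨c, hc, hyc⟩ := hnet y hy
  obtain ⟨I, hI1, hI2, -⟩ := hF (y - c)
  have h1 := hw c hc
  rw [sum_boole] at h1
  have h2 : I.card < (univ.filter fun i => t ≤ |g i ⬝ᵥ c|).card := by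
    have : (I.card : ℝ) < s := by exact_mod_cast hI1
    exact_mod_cast this.trans_le h1
  obtain ⟨i, hi1, hi2⟩ := exists_mem_notMem_of_card_lt_card h2
  have h3 : |g i ⬝ᵥ (y - c)| ≤ θ / 100 := by
    refine abs_le_of_sq_le_sq ((hI2 i hi2).trans ?_) (by positivity)
    have := mul_le_mul_of_nonneg_left hyc (sq_nonneg θ)
    simp only [Pi.sub_apply]
    linarith
  have h4 : t ≤ |g i ⬝ᵥ c| := (mem_filter.1 hi1).2
  have h5 : |g i ⬝ᵥ c| ≤ |g i ⬝ᵥ y| + |g i ⬝ᵥ (y - c)| := by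
    have := abs_sub (g i ⬝ᵥ y) (g i ⬝ᵥ (y - c))
    rwa [← dotProduct_sub, sub_sub_cancel] at this
  have h6 := hx i
  rw [dotProduct_smul, smul_eq_mul, abs_mul, abs_of_pos hr] at h6
  have h7 : l * r ≤ 1 := by
    have : l ≤ |g i ⬝ᵥ y| := by linarith
    nlinarith
  rw [← hr2, ← mul_pow]
  exact pow_le_one₀ (by positivity) h7

end Pool.Agent.Work.MP_5c5849_an
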