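import Pool.Agent.Work.MP_5c5849_an.Gauss
import Pool.Agent.Work.MP_5c5849_an.Geom

/-! Gaussian vectors span almost surely. -/

open Finset MeasureTheory ProbabilityTheory

namespace Pool.Agent.Work.MP_5c5849_an

variable {κ : Type*} [Fintype κ]

lemma ae_notMem_submodule (V : Submodule ℝ (κ → ℝ)) (hV : V < ⊤) : ∀ᵐ x ∂(gp κ), x ∉ V := by
  classical
  obtain ⟨φ, hφ0, hφ⟩ := V.exists_le_ker_of_lt_top hV
  have hrep : ∀ v : κ → ℝ, v ⬝ᵥ (fun k => φ (fun j => if k = j then 1 else 0)) = φ v := by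
    intro v
    rw [φ.pi_apply_eq_sum_univ v]
    rfl
  rcases exists_unit (fun k => φ (fun j => if k = j then 1 else 0)) with h | ⟨r, hr, -, w, hw, h⟩
  · exfalso
    refine hφ0 (LinearMap.ext fun v => ?_)
    rw [← hrep, h]
    simp
  · have := nullSingletonClass_gaussianReal (μ := 0) (v := 1) one_ne_zero
    have h1 : ∀ᵐ z ∂(gaussianReal 0 1), z ≠ 0 := by
      rw [ae_iff]
      simp
    filter_upwards [(mp_dot w hw).quasiMeasurePreserving.ae h1] with x hx hxV
    have h2 : φ x = 0 := hφ hxV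
    rw [← hrep, h, dotProduct_smul, smul_eq_mul] at h2
    exact hx ((mul_eq_zero.1 h2).resolve_left hr.ne')

lemma ae_cons {N : ℕ} (p : (Fin (N + 1) → κ → ℝ) → Prop)
    (h : ∀ᵐ z ∂((gp κ).prod (gm (Fin N) κ)), p (Fin.cons z.1 z.2)) :
    ∀ᵐ g ∂(gm (Fin (N + 1)) κ), p g := by
  have h1 := (measurePreserving_piFinSuccAbove (fun _ : Fin (N + 1) => gp κ)
    0).quasiMeasurePreserving.ae h
  filter_upwards [h1] with g hg
  have e : g = Fin.cons (g 0) (fun j => g (Fin.succAbove 0 j)) := by
    funext j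
    refine Fin.cases ?_ (fun j => ?_) j <;> simp
  rw [e]
  exact hg

lemma ae_linearIndependent (N : ℕ) (hN : N ≤ Fintype.card κ) :
    ∀ᵐ g ∂(gm (Fin N) κ), LinearIndependent ℝ g := by
  induction N with
  | zero => exact ae_of_all _ fun g => linearIndependent_empty_type
  | succ N ih =>
    refine ae_cons _ ?_
    have hm : MeasurableSet {z : (κ → ℝ) × (Fin N → κ → ℝ) |
        LinearIndependent ℝ (Fin.cons z.1 z.2 : Fin (N + 1) → κ → ℝ)} := by
      refine IsOpen.measurableSet (isOpen_setOfPred_linearIndependent.preimage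
        (f := fun z : (κ → ℝ) × (Fin N → κ → ℝ) => (Fin.cons z.1 z.2 : Fin (N + 1) → κ → ℝ)) ?_)
      refine continuous_pi fun j => ?_
      refine Fin.cases ?_ (fun j => ?_) j
      · simpa using continuous_fst
      · simp only [Fin.cons_succ]
        exact (continuous_apply j).comp continuous_snd
    rw [Measure.ae_prod_iff_ae_ae hm, Measure.ae_ae_comm hm]
    filter_upwards [ih (by omega)] with g hg
    have hV : Submodule.span ℝ (Set.range g) < ⊤ := by
      refine Submodule.lt_top_of_finrank_lt_finrank ?_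
      rw [finrank_span_eq_card hg]
      simp only [Fintype.card_fin, Module.finrank_fintype_fun_eq_card]
      omega
    filter_upwards [ae_notMem_submodule _ hV] with x hx
    exact hg.finCons hx

lemma ae_span (N : ℕ) (hN : Fintype.card κ ≤ N) :
    ∀ᵐ g ∂(gm (Fin N) κ), Submodule.span ℝ (Set.range g) = ⊤ := by
  induction N, hN using Nat.le_induction with
  | base =>
    filter_upwards [ae_linearIndependent (κ := κ) _ le_rfl] with g hg
    exact hg.span_eq_top_of_card_eq_finrank' (by simp)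
  | succ N hN ih =>
    refine ae_cons _ ?_
    filter_upwards [Measure.quasiMeasurePreserving_snd.ae ih] with z hz
    rw [eq_top_iff, ← hz]
    refine Submodule.span_mono ?_
    rintro _ ⟨j, rfl⟩
    exact ⟨j.succ, by simp⟩

lemma ae_surj (N : ℕ) (hN : Fintype.card κ ≤ N) :
    ∀ᵐ g ∂(gm (Fin N) κ), ∀ y, ∃ a : Fin N → ℝ, ∑ i, a i • g i = y := by
  filter_upwards [ae_span (κ := κ) N hN] with g hg y
  exact (Submodule.mem_span_range_iff_exists_fun ℝ).1 (hg ▸ Submodule.mem_top)

end Pool.Agent.Work.MP_5c5849_an
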