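import Mathlib
import Pool.Agent.Work.MP_5c5849_an.Gauss
import Pool.Agent.Work.MP_5c5849_an.Geom
import Pool.Agent.Work.MP_5c5849_an.Span

-- merged part: Pool.Agent.Work.MP_5c5849_an.Net
section
/-! Volumetric nets of the Euclidean sphere. -/

open Finset Metric MeasureTheory Module
open scoped ENNReal

namespace Pool.Agent.Work.MP_5c5849_an

open scoped Function in
lemma card_le_of_sep {E : Type*} [NormedAddCommGroup E] [NormedSpace ℝ E] [FiniteDimensional ℝ E]
    {ε : ℝ} (hε : 0 < ε) (s : Finset E) (hs : ∀ c ∈ s, ‖c‖ ≤ 1)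
    (h : ∀ c ∈ s, ∀ d ∈ s, c ≠ d → ε ≤ ‖c - d‖) :
    (s.card : ℝ) ≤ (1 + 2 / ε) ^ finrank ℝ E := by
  borelize E
  let μ : Measure E := Measure.addHaar
  let δ : ℝ := ε / 2
  let ρ : ℝ := 1 + ε / 2
  have δpos : 0 < δ := by positivity
  have ρpos : 0 < ρ := by positivity
  set A := ⋃ c ∈ s, ball (c : E) δ with hA
  have D : Set.Pairwise (s : Set E) (Disjoint on fun c => ball (c : E) δ) := by
    rintro c hc d hd hcd
    apply ball_disjoint_ball
    rw [dist_eq_norm]
    have := h c hc d hd hcd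
    simp only [δ]
    linarith
  have A_subset : A ⊆ ball (0 : E) ρ := by
    refine Set.iUnion₂_subset fun x hx => ?_
    apply ball_subset_ball'
    rw [dist_zero_right]
    have := hs x hx
    simp only [δ, ρ]
    linarith
  have I :
    (s.card : ℝ≥0∞) * ENNReal.ofReal (δ ^ finrank ℝ E) * μ (ball 0 1) ≤
      ENNReal.ofReal (ρ ^ finrank ℝ E) * μ (ball 0 1) :=
    calc
      (s.card : ℝ≥0∞) * ENNReal.ofReal (δ ^ finrank ℝ E) * μ (ball 0 1) = μ A := by
        rw [hA, measure_biUnion_finset D fun c _ => measurableSet_ball]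
        simp only [μ.addHaar_ball_of_pos _ δpos]
        simp only [Finset.sum_const, nsmul_eq_mul, mul_assoc]
      _ ≤ μ (ball (0 : E) ρ) := measure_mono A_subset
      _ = ENNReal.ofReal (ρ ^ finrank ℝ E) * μ (ball 0 1) := by
        simp only [μ.addHaar_ball_of_pos _ ρpos]
  have J : (s.card : ℝ≥0∞) * ENNReal.ofReal (δ ^ finrank ℝ E) ≤ ENNReal.ofReal (ρ ^ finrank ℝ E) :=
    (ENNReal.mul_le_mul_iff_left (measure_ball_pos _ _ zero_lt_one).ne' measure_ball_lt_top.ne).1 I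
  have K : (s.card : ℝ) * δ ^ finrank ℝ E ≤ ρ ^ finrank ℝ E := by
    have := ENNReal.toReal_le_of_le_ofReal (pow_nonneg ρpos.le _) J
    rwa [ENNReal.toReal_mul, ENNReal.toReal_ofReal (pow_nonneg δpos.le _),
      ENNReal.toReal_natCast] at this
  have e : 1 + 2 / ε = ρ / δ := by
    simp only [δ, ρ]
    field_simp
    ring
  rw [e, div_pow, le_div_iff₀ (pow_pos δpos _)]
  exact K

lemma exists_net_aux {E : Type*} [NormedAddCommGroup E] [NormedSpace ℝ E] [FiniteDimensional ℝ E]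
    {ε : ℝ} (hε : 0 < ε) : ∃ s : Finset E, (s.card : ℝ) ≤ (1 + 2 / ε) ^ finrank ℝ E ∧
      (∀ c ∈ s, ‖c‖ = 1) ∧ ∀ x : E, ‖x‖ = 1 → ∃ c ∈ s, ‖x - c‖ ≤ ε := by
  classical
  let P : ℕ → Prop := fun k => ∃ s : Finset E, s.card = k ∧ (∀ c ∈ s, ‖c‖ = 1) ∧
    ∀ c ∈ s, ∀ d ∈ s, c ≠ d → ε ≤ ‖c - d‖
  obtain ⟨B, hB⟩ := exists_nat_ge ((1 + 2 / ε) ^ finrank ℝ E)
  have hbound : ∀ k, P k → k ≤ B := by
    rintro k ⟨s, rfl, h1, h2⟩
    have := (card_le_of_sep hε s (fun c hc => (h1 c hc).le) h2).trans hB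
    exact_mod_cast this
  have h0 : P 0 := ⟨∅, rfl, by simp, by simp⟩
  obtain ⟨s, hs, h1, h2⟩ := Nat.findGreatest_spec (P := P) (Nat.zero_le B) h0
  refine ⟨s, card_le_of_sep hε s (fun c hc => (h1 c hc).le) h2, h1, fun x hx => ?_⟩
  by_contra hcon
  push Not at hcon
  have hxs : x ∉ s := fun hxs => by
    have := hcon x hxs
    rw [sub_self, norm_zero] at this
    linarith
  have hP : P (s.card + 1) := by
    refine ⟨insert x s, card_insert_of_notMem hxs, ?_, ?_⟩
    · intro c hc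
      rcases mem_insert.1 hc with rfl | hc
      · exact hx
      · exact h1 c hc
    · intro c hc d hd hcd
      rcases mem_insert.1 hc with rfl | hc' <;> rcases mem_insert.1 hd with rfl | hd'
      · exact absurd rfl hcd
      · exact (hcon d hd').le
      · rw [norm_sub_rev]
        exact (hcon c hc').le
      · exact h2 c hc' d hd' hcd
  have := Nat.le_findGreatest (hbound _ hP) hP
  omega

/-- An `ε`-net of the Euclidean unit sphere of `κ → ℝ`. -/
lemma exists_net (κ : Type*) [Fintype κ] {ε : ℝ} (hε : 0 < ε) :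
    ∃ s : Finset (κ → ℝ), (s.card : ℝ) ≤ (1 + 2 / ε) ^ Fintype.card κ ∧
      (∀ c ∈ s, ∑ k, c k ^ 2 = 1) ∧
      ∀ x : κ → ℝ, ∑ k, x k ^ 2 = 1 → ∃ c ∈ s, ∑ k, (x k - c k) ^ 2 ≤ ε ^ 2 := by
  classical
  obtain ⟨s, h1, h2, h3⟩ := exists_net_aux (E := EuclideanSpace ℝ κ) hε
  refine ⟨s.image fun c => c.ofLp, ?_, ?_, ?_⟩
  · refine le_trans (by exact_mod_cast card_image_le) (h1.trans (le_of_eq ?_))
    simp
  · intro c hc
    obtain ⟨d, hd, rfl⟩ := mem_image.1 hc
    rw [← EuclideanSpace.real_norm_sq_eq, h2 d hd, one_pow]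
  · intro x hx
    obtain ⟨c, hc, hxc⟩ := h3 (WithLp.toLp 2 x) (by
      have : ‖(WithLp.toLp 2 x : EuclideanSpace ℝ κ)‖ ^ 2 = 1 := by
        rw [EuclideanSpace.real_norm_sq_eq]
        exact hx
      exact (pow_eq_one_iff_of_nonneg (norm_nonneg _) two_ne_zero).1 this)
    refine ⟨c.ofLp, mem_image_of_mem _ hc, ?_⟩
    have := pow_le_pow_left₀ (norm_nonneg _) hxc 2
    rw [EuclideanSpace.real_norm_sq_eq] at this
    simpa using this

end Pool.Agent.Work.MP_5c5849_an
end

-- merged part: Pool.Agent.Work.MP_5c5849_an.Events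
section
/-! Probabilities of the bad events. -/

open Finset MeasureTheory ProbabilityTheory

namespace Pool.Agent.Work.MP_5c5849_an

variable {ι κ : Type*} [Fintype ι] [Fintype κ]

lemma pow_le_exp_mul {a b : ℝ} (ha : 0 ≤ a) (h : a ≤ Real.exp b) (k : ℕ) :
    a ^ k ≤ Real.exp (b * k) := by
  rw [mul_comm, Real.exp_nat_mul]
  exact pow_le_pow_left₀ ha h k

lemma five_le_exp : (5 : ℝ) ≤ Real.exp 2 := by
  have h := Real.exp_one_gt_d9
  have : Real.exp 2 = Real.exp 1 ^ 2 := by rw [← Real.exp_nat_mul]; norm_num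
  rw [this]
  nlinarith

lemma le_exp_six : (201 : ℝ) ≤ Real.exp 6 := by
  have h := five_le_exp
  have h1 := Real.exp_one_gt_d9
  have : Real.exp 6 = Real.exp 1 ^ 6 := by rw [← Real.exp_nat_mul]; norm_num
  rw [this]
  exact le_trans (by norm_num) (pow_le_pow_left₀ (by norm_num : (0 : ℝ) ≤ 2.7) (by linarith) 6)

lemma prob_upper {n N : ℝ} (hn : n = Fintype.card κ) (hN : N = Fintype.card ι) (hn0 : 0 < n)
    (hnN : n ≤ N) :
    (gm ι κ).real {g | ¬ Upper g (4 * Real.log (N / n)) (16 * n)} ≤ Real.exp (-(n / 2)) := by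
  obtain ⟨w, hw1, hw2, hw3⟩ := exists_net κ (ε := 1 / 2) (by norm_num)
  have hx : 1 ≤ N / n := (one_le_div hn0).2 hnN
  have hτ : 0 ≤ 4 * Real.log (N / n) := mul_nonneg (by norm_num) (Real.log_nonneg hx)
  have hsub : {g : ι → κ → ℝ | ¬ Upper g (4 * Real.log (N / n)) (16 * n)} ⊆
      ⋃ c ∈ w, (fun (g : ι → κ → ℝ) (i : ι) => g i ⬝ᵥ c) ⁻¹'
        {z | 16 * n < ∑ i, max (z i ^ 2 - 4 * Real.log (N / n)) 0} := by
    intro g hg
    by_contra hc
    refine hg (upper_of_event g w hτ (by positivity) hw3 fun c hcw => ?_)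
    by_contra h
    exact hc (Set.mem_biUnion hcw (not_le.1 h))
  refine (measureReal_mono hsub (measure_ne_top _ _)).trans ((measureReal_biUnion_finset_le _ _).trans ?_)
  have h1 : ∀ c ∈ w, (gm ι κ).real ((fun (g : ι → κ → ℝ) (i : ι) => g i ⬝ᵥ c) ⁻¹'
        {z | 16 * n < ∑ i, max (z i ^ 2 - 4 * Real.log (N / n)) 0}) ≤
      Real.exp (-(4 * n)) * Real.exp (3 / 2 * n) := by
    clear * - κ w ι n N hw2 hx hn0 hnN hN
    intro c hc
    refine (real_preimage_le (mp_rows c (hw2 c hc)) _).trans (tail_upper.trans ?_)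
    have e1 : -(16 * n / 4) = -(4 * n) := by ring
    have e2 : Real.exp (-(4 * Real.log (N / n) / 4)) = n / N := by
      rw [mul_div_cancel_left₀ _ (by norm_num : (4 : ℝ) ≠ 0), Real.exp_neg,
        Real.exp_log (by linarith), inv_div]
    rw [e1, e2]
    refine mul_le_mul_of_nonneg_left ?_ (Real.exp_pos _).le
    have hN0 : 0 < N := by linarith
    have h2 := pow_le_exp_mul (a := 1 + 3 / 2 * (n / N)) (b := 3 / 2 * (n / N)) (by positivity)
      (by have := Real.add_one_le_exp (3 / 2 * (n / N)); linarith) (Fintype.card ι)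
    refine h2.trans (le_of_eq ?_)
    rw [← hN]
    congr 1
    field_simp
  refine (sum_le_card_nsmul _ _ _ h1).trans ?_
  rw [nsmul_eq_mul]
  have h3 : (w.card : ℝ) ≤ Real.exp (2 * n) := by
    refine hw1.trans ?_
    rw [hn]
    exact pow_le_exp_mul (by norm_num) (by norm_num; exact five_le_exp) _
  refine (mul_le_mul_of_nonneg_right h3 (by positivity)).trans (le_of_eq ?_)
  rw [← Real.exp_add, ← Real.exp_add]
  congr 1
  ring

lemma prob_small_comb (T : Finset ι) (c : T → ℝ) (hc : ∑ i, c i ^ 2 = 1) (b : ℝ) :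
    (gm ι κ).real {g | ∑ k, (∑ i : T, c i • g i) k ^ 2 < b} ≤
      Real.exp (3 / 2 * b) * (1 / 2) ^ Fintype.card κ := by
  classical
  set d : ι → ℝ := fun i => if h : i ∈ T then c ⟨i, h⟩ else 0 with hd
  have hd1 : ∀ i : T, d i = c i := fun i => by simp [hd]
  have hd0 : ∀ i ∉ T, d i = 0 := fun i hi => by simp [hd, hi]
  have h1 : ∑ i, d i ^ 2 = 1 := by
    rw [← hc, ← sum_subset (subset_univ T) (fun i _ hi => by simp [hd0 i hi]), ← sum_coe_sort T]
    simp only [hd1]
  have h2 : ∀ g : ι → κ → ℝ, ∑ i, d i • g i = ∑ i : T, c i • g i := by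
    intro g
    rw [← sum_subset (subset_univ T) (fun i _ hi => by simp [hd0 i hi]), ← sum_coe_sort T]
    simp only [hd1]
  refine le_trans (le_of_eq ?_) ((real_preimage_le (mp_cols (κ := κ) d h1) _).trans tail_lower)
  congr 1
  ext g
  simp only [Set.mem_ofPred_eq, Set.mem_preimage, h2]

lemma sum_subsets_le (s : ℕ) {ρ y : ℝ} (hρ : 0 < ρ) (hρ1 : ρ ≤ 1) (hy : 0 ≤ y) :
    ∑ T ∈ (univ : Finset (Finset ι)).filter (fun T => T.card < s + 1), y ^ T.card ≤
      (ρ⁻¹) ^ s * Real.exp (y * ρ * Fintype.card ι) := by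
  classical
  have h1 : ∑ T : Finset ι, (y * ρ) ^ T.card = (1 + y * ρ) ^ Fintype.card ι := by
    have := prod_one_add (f := fun _ : ι => y * ρ) univ
    simp only [prod_const, card_univ, powerset_univ] at this
    exact this.symm
  calc ∑ T ∈ (univ : Finset (Finset ι)).filter (fun T => T.card < s + 1), y ^ T.card
      ≤ ∑ T ∈ (univ : Finset (Finset ι)).filter (fun T => T.card < s + 1),
          (ρ⁻¹) ^ s * (y * ρ) ^ T.card := by
        refine sum_le_sum fun T hT => ?_
        have hT' : T.card ≤ s := Nat.lt_succ_iff.1 (mem_filter.1 hT).2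
        have h2 : (ρ⁻¹) ^ T.card ≤ (ρ⁻¹) ^ s := pow_le_pow_right₀ (one_le_inv₀ hρ |>.2 hρ1) hT'
        refine le_trans (le_of_eq ?_) (mul_le_mul_of_nonneg_right h2 (by positivity))
        rw [← mul_pow]
        congr 1
        field_simp
    _ ≤ ∑ T : Finset ι, (ρ⁻¹) ^ s * (y * ρ) ^ T.card :=
        sum_le_sum_of_subset_of_nonneg (filter_subset _ _) fun T _ _ => by positivity
    _ = (ρ⁻¹) ^ s * (1 + y * ρ) ^ Fintype.card ι := by rw [← mul_sum, h1]
    _ ≤ _ := by
        refine mul_le_mul_of_nonneg_left (pow_le_exp_mul (by positivity) ?_ _) (by positivity)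
        have := Real.add_one_le_exp (y * ρ)
        linarith

lemma prob_lower {n N τ : ℝ} (hn : n = Fintype.card κ) (hN : N = Fintype.card ι) (hn0 : 0 < n)
    (hnN : n ≤ N) (hτ : 0 ≤ τ) (s : ℕ) (hs1 : s * τ ≤ 4 * n)
    (hs2 : s * Real.log (730 * (N / n)) ≤ n / 10) :
    (gm ι κ).real {g | Upper g τ (16 * n) ∧ ¬ Lower g (s + 1) n} ≤ Real.exp (-(n / 10)) := by
  classical
  have hx : 1 ≤ N / n := (one_le_div hn0).2 hnN
  choose w hw1 hw2 hw3 using fun T : Finset ι => exists_net T (ε := 1 / 36) (by norm_num)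
  have hsub : {g : ι → κ → ℝ | Upper g τ (16 * n) ∧ ¬ Lower g (s + 1) n} ⊆
      ⋃ T ∈ (univ : Finset (Finset ι)).filter (fun T => T.card < s + 1), ⋃ c ∈ w T,
        {g | ∑ k, (∑ i : T, c i • g i) k ^ 2 < n / 4} := by
    rintro g ⟨hU, hL⟩
    by_contra hc
    refine hL fun T hT a => lower_of_net (fun i : T => g i) (w T) hn0.le (fun v => ?_) (hw3 T)
      (fun c hcw => ?_) a
    · rw [sum_coe_sort T (fun i => (g i ⬝ᵥ v) ^ 2)]
      refine (hU T v).trans (mul_le_mul_of_nonneg_right ?_ (sum_nonneg fun k _ => sq_nonneg _))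
      have h1 : (T.card : ℝ) ≤ s := by exact_mod_cast Nat.lt_succ_iff.1 hT
      have h2 := mul_le_mul_of_nonneg_right h1 hτ
      linarith
    · by_contra h
      exact hc (Set.mem_biUnion (mem_coe.2 (mem_filter.2 ⟨mem_univ T, hT⟩))
        (Set.mem_biUnion hcw (not_le.1 h)))
  refine (measureReal_mono hsub (measure_ne_top _ _)).trans ((measureReal_biUnion_finset_le _ _).trans ?_)
  have h1 : ∀ T ∈ (univ : Finset (Finset ι)).filter (fun T => T.card < s + 1),
      (gm ι κ).real (⋃ c ∈ w T, {g | ∑ k, (∑ i : T, c i • g i) k ^ 2 < n / 4}) ≤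
        73 ^ T.card * Real.exp (-(3 / 10 * n)) := by
    clear * - ι s κ w n hw2 hw1 hn hn0
    intro T _
    refine (measureReal_biUnion_finset_le _ _).trans ?_
    refine (sum_le_card_nsmul _ _ _ fun c hc => prob_small_comb T c (hw2 T c hc) _).trans ?_
    rw [nsmul_eq_mul]
    refine mul_le_mul ((hw1 T).trans (le_of_eq ?_)) ?_ (by positivity) (by positivity)
    · norm_num
    · have h2 : (1 / 2 : ℝ) ^ Fintype.card κ ≤ Real.exp (-(0.69) * n) := by
        rw [hn]
        refine pow_le_exp_mul (by norm_num) ?_ _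
        have h3 := Real.log_two_gt_d9
        have h4 : Real.exp (-Real.log 2) = 1 / 2 := by
          rw [Real.exp_neg, Real.exp_log two_pos, one_div]
        rw [← h4, Real.exp_le_exp]
        linarith
      refine (mul_le_mul_of_nonneg_left h2 (Real.exp_pos _).le).trans ?_
      rw [← Real.exp_add, Real.exp_le_exp]
      linarith
  refine (sum_le_sum h1).trans ?_
  rw [← sum_mul]
  have hρ : 0 < (730 * (N / n))⁻¹ := by positivity
  have h2 := sum_subsets_le (ι := ι) s (ρ := (730 * (N / n))⁻¹) (y := 73) hρ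
    (inv_le_one_of_one_le₀ (by linarith)) (by norm_num)
  have h3 : ((730 * (N / n))⁻¹)⁻¹ ^ s ≤ Real.exp (n / 10) := by
    rw [inv_inv]
    refine (pow_le_exp_mul (b := Real.log (730 * (N / n))) (by positivity)
      (Real.exp_log (by positivity)).ge s).trans ?_
    rw [Real.exp_le_exp]
    linarith
  have h4 : 73 * (730 * (N / n))⁻¹ * Fintype.card ι = n / 10 := by
    rw [← hN]
    have : 0 < N := by linarith
    field_simp
    norm_num
  rw [h4] at h2
  refine (mul_le_mul_of_nonneg_right (h2.trans (mul_le_mul_of_nonneg_right h3 (Real.exp_pos _).le))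
    (Real.exp_pos _).le).trans (le_of_eq ?_)
  rw [← Real.exp_add, ← Real.exp_add]
  congr 1
  ring

/-- The norm of the dual space dominates a multiple of the Euclidean norm. -/
def Large (g : ι → κ → ℝ) (l : ℝ) : Prop :=
  ∀ x : κ → ℝ, (∀ i, |g i ⬝ᵥ x| ≤ 1) → l ^ 2 * ∑ k, x k ^ 2 ≤ 1

lemma prob_large {n N θ l t : ℝ} (hn : n = Fintype.card κ) (hN : N = Fintype.card ι)
    (s : ℕ) (hs : s ≤ n) (hθ : 0 ≤ θ) (hl0 : 0 ≤ l) (hl : l + θ / 100 ≤ t)
    (ht : 144 * n ≤ N * Real.exp (-t ^ 2)) :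
    (gm ι κ).real {g | Few g s θ ∧ ¬ Large g l} ≤ Real.exp (-n) := by
  obtain ⟨w, hw1, hw2, hw3⟩ := exists_net κ (ε := 1 / 100) (by norm_num)
  have hsub : {g : ι → κ → ℝ | Few g s θ ∧ ¬ Large g l} ⊆
      ⋃ c ∈ w, (fun (g : ι → κ → ℝ) (i : ι) => g i ⬝ᵥ c) ⁻¹'
        {z | ∑ i, (if t ≤ |z i| then (1 : ℝ) else 0) < s} := by
    rintro g ⟨hF, hL⟩
    by_contra hc
    refine hL (exists_large_of_net hF hθ w hw3 (fun c hcw => ?_) hl0 hl)
    by_contra h
    exact hc (Set.mem_biUnion hcw (not_le.1 h))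
  refine (measureReal_mono hsub (measure_ne_top _ _)).trans ((measureReal_biUnion_finset_le _ _).trans ?_)
  have h1 : ∀ c ∈ w, (gm ι κ).real ((fun (g : ι → κ → ℝ) (i : ι) => g i ⬝ᵥ c) ⁻¹'
        {z | ∑ i, (if t ≤ |z i| then (1 : ℝ) else 0) < s}) ≤ Real.exp (-(7 * n)) := by
    intro c hc
    refine (real_preimage_le (mp_rows c (hw2 c hc)) _).trans
      ((tail_count (by linarith [div_nonneg hθ (by norm_num : (0 : ℝ) ≤ 100)])).trans ?_)
    rw [← Real.exp_nat_mul, ← Real.exp_add, Real.exp_le_exp, ← hN]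
    linarith
  refine (sum_le_card_nsmul _ _ _ h1).trans ?_
  rw [nsmul_eq_mul]
  have h3 : (w.card : ℝ) ≤ Real.exp (6 * n) := by
    refine hw1.trans ?_
    rw [hn]
    exact pow_le_exp_mul (by norm_num) (by norm_num; exact le_exp_six) _
  refine (mul_le_mul_of_nonneg_right h3 (by positivity)).trans (le_of_eq ?_)
  rw [← Real.exp_add]
  congr 1
  ring

end Pool.Agent.Work.MP_5c5849_an
end

-- merged part: Pool.Agent.Work.MP_5c5849_an.Main
section
/-! Gaussian polytopes have cotype 2 with an absolute constant. -/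

open Finset MeasureTheory ProbabilityTheory

namespace Pool.Agent.Work.MP_5c5849_an

variable {ι κ : Type*} [Fintype ι] [Fintype κ]

/-- Cotype 2 with the absolute constant of the proof. -/
def Cot (g : ι → κ → ℝ) : Prop :=
  ∀ (m : ℕ) (y : Fin m → κ → ℝ), Real.sqrt (∑ j, gauge (body g) (y j) ^ 2) ≤
    (65 + 4) * (1 + 6 * 10 ^ 13) * Real.sqrt (av fun s => gauge (body g) (∑ j, sg s j • y j) ^ 2)

lemma cot_of_events [Nonempty ι] (g : ι → κ → ℝ) {n N L : ℝ} {s : ℕ} (hN : N = Fintype.card ι)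
    (hn0 : 0 < n) (hnN : n ≤ N) (hL : L = Real.log (730 * (N / n)))
    (hs2 : n ≤ 10 * L * (s + 1)) (hs3 : s * L ≤ n / 10)
    (hsurj : ∀ y, ∃ a : ι → ℝ, ∑ i, a i • g i = y)
    (hF : Few g (s + 1) (26 * Real.sqrt L)) (hLow : Lower g (s + 1) n)
    (hLarge : 10 ^ 8 ≤ N / n → Large g (2 / 5 * Real.sqrt L)) : Cot g := by
  classical
  have hx : 1 ≤ N / n := (one_le_div hn0).2 hnN
  have hL0 : 0 ≤ L := by
    rw [hL]
    exact Real.log_nonneg (by linarith)
  have hq : Real.sqrt L ^ 2 = L := Real.sq_sqrt hL0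
  have hker := ker_of_lower hF hLow hn0 (by positivity) (Nat.succ_pos s) (by
    clear * - s L n hq hn0 hs3
    intro h2
    have h3 : (1 : ℝ) ≤ s := by exact_mod_cast (by omega : 1 ≤ s)
    rw [mul_pow, hq]
    push_cast
    nlinarith)
  push_cast at hker
  intro m y
  rcases lt_or_ge (N / n) (10 ^ 8) with hc | hc
  · have hN0 : 0 < N := by linarith
    have hr : Real.sqrt N ^ 2 = N := Real.sq_sqrt hN0.le
    have hr0 : 0 < Real.sqrt N := Real.sqrt_pos.2 hN0
    have hB : ∀ v : κ → ℝ, ∑ r, (((Real.sqrt N)⁻¹ • g r) ⬝ᵥ v) ^ 2 = N⁻¹ * ∑ r, (g r ⬝ᵥ v) ^ 2 := by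
      intro v
      simp only [smul_dotProduct, smul_eq_mul, mul_pow, inv_pow, hr]
      rw [mul_sum]
    refine det_cotype g hsurj (fun r => (Real.sqrt N)⁻¹ • g r) (σ := Real.sqrt N) hr0.le
      (by norm_num) (by norm_num) (fun a ha => ?_) (fun x hx => ?_) (fun v => ⟨univ, ?_, ?_, ?_⟩) y
    · have h1 := hker a ha
      have h2 : L ≤ 730 * 10 ^ 8 := by
        rw [hL]
        refine (Real.log_le_self (by positivity)).trans ?_
        linarith
      have h3 : N ≤ 10 ^ 20 * (s + 1) := by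
        clear * - N n hn0 hc s L hs2 hq hr h2
        have h4 : N ≤ 10 ^ 8 * n := by
          rw [div_lt_iff₀ hn0] at hc
          exact hc.le
        have h5 : (0 : ℝ) ≤ s + 1 := by positivity
        nlinarith
      have h4 : 0 ≤ ∑ i, a i ^ 2 := sum_nonneg fun i _ => sq_nonneg _
      have h5 := mul_le_mul_of_nonneg_right h3 h4
      have h6 := sq_nonneg (∑ i, |a i|)
      rw [hr]
      clear * - N ι a s h1 h5
      nlinarith
    · rw [hB, inv_mul_le_iff₀ hN0, mul_one, hN]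
      refine (sum_le_card_nsmul _ _ 1 fun i _ => ?_).trans (by simp)
      rw [← sq_abs]
      exact pow_le_one₀ (abs_nonneg _) (hx i)
    · rw [hr, hN]
      simp
    · simp
    · rw [hB, hr, mul_assoc, ← mul_assoc N, mul_inv_cancel₀ hN0.ne', one_mul]
      have : 0 ≤ ∑ i, (g i ⬝ᵥ v) ^ 2 := sum_nonneg fun i _ => sq_nonneg _
      clear * - ι κ g v this
      nlinarith
  · have hB : ∀ v : κ → ℝ, ∑ r, ((Pi.single r (2 / 5 * Real.sqrt L) : κ → ℝ) ⬝ᵥ v) ^ 2 =
        (2 / 5 * Real.sqrt L) ^ 2 * ∑ r, v r ^ 2 := by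
      intro v
      simp only [single_dotProduct, mul_pow]
      rw [mul_sum]
    have hr : Real.sqrt (s + 1) ^ 2 = s + 1 := Real.sq_sqrt (by positivity)
    refine det_cotype g hsurj (fun r => Pi.single r (2 / 5 * Real.sqrt L))
      (σ := Real.sqrt (s + 1)) (Real.sqrt_nonneg _)
      (by norm_num) (by norm_num) (fun a ha => ?_) (fun x hx => ?_) (fun v => ?_) y
    · rw [hr]
      refine (hker a ha).trans (mul_le_mul_of_nonneg_right (by norm_num) (sq_nonneg _))
    · rw [hB]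
      exact hLarge hc x hx
    · obtain ⟨I, h1, h2, h3⟩ := hF v
      refine ⟨I, ?_, fun i hi => ?_, ?_⟩
      · rw [hr]
        exact_mod_cast h1.le
      · rw [hB]
        exact (h2 i hi).trans (le_of_eq (by ring))
      · rw [hB, hr]
        push_cast at h3
        exact h3.trans (le_of_eq (by ring))

theorem prob_not_cot {n N : ℕ} (hn : 2 ≤ n) (hnN : n ≤ N) :
    (gm (Fin N) (Fin n)).real {g | ¬ Cot g} ≤ 3 * Real.exp (-(n / 10)) := by
  have : Nonempty (Fin N) := ⟨⟨0, by omega⟩⟩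
  have hn2 : (2 : ℝ) ≤ n := by exact_mod_cast hn
  have hn0 : (0 : ℝ) < n := by linarith
  have hnN' : (n : ℝ) ≤ N := by exact_mod_cast hnN
  have hx : (1 : ℝ) ≤ N / n := (one_le_div hn0).2 hnN'
  set L := Real.log (730 * ((N : ℝ) / n)) with hL
  have hlog : Real.log ((N : ℝ) / n) ≤ L := Real.log_le_log (by linarith) (by linarith)
  have hlog0 : 0 ≤ Real.log ((N : ℝ) / n) := Real.log_nonneg hx
  have hL1 : 1 ≤ L := by
    rw [hL, Real.le_log_iff_exp_le (by positivity)]
    have := Real.exp_one_lt_d9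
    linarith
  have hq : Real.sqrt L ^ 2 = L := Real.sq_sqrt (by linarith)
  have hq0 : 0 ≤ Real.sqrt L := Real.sqrt_nonneg _
  set s := ⌊(n : ℝ) / (10 * L)⌋₊ with hs
  have hs2 : (n : ℝ) ≤ 10 * L * (s + 1) := by
    have := Nat.lt_floor_add_one ((n : ℝ) / (10 * L))
    rw [div_lt_iff₀ (by positivity)] at this
    linarith
  have hs3 : s * L ≤ n / 10 := by
    have := Nat.floor_le (by positivity : 0 ≤ (n : ℝ) / (10 * L))
    rw [le_div_iff₀ (by positivity)] at this
    linarith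
  have hs0 : (0 : ℝ) ≤ s := Nat.cast_nonneg _
  have hfew : ∀ g : Fin N → Fin n → ℝ, Upper g (4 * Real.log ((N : ℝ) / n)) (16 * n) →
      Few g (s + 1) (26 * Real.sqrt L) := fun g hU =>
    few_of_upper hU (by positivity) (Nat.succ_pos s) (by
      clear * - s N n L hq hn2 hlog hs2
      rw [mul_pow, hq]
      push_cast
      nlinarith)
  have p1 := prob_upper (ι := Fin N) (κ := Fin n) (n := n) (N := N) (by simp) (by simp) hn0 hnN'
  have p2 := prob_lower (ι := Fin N) (κ := Fin n) (n := n) (N := N)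
    (τ := 4 * Real.log ((N : ℝ) / n)) (by simp) (by simp) hn0 hnN' (by positivity) s
    (by clear * - s N n L hn2 hs3 hlog; nlinarith) hs3
  have p3 : (gm (Fin N) (Fin n)).real {g | Few g (s + 1) (26 * Real.sqrt L) ∧
      ¬ (10 ^ 8 ≤ (N : ℝ) / n → Large g (2 / 5 * Real.sqrt L))} ≤ Real.exp (-n) := by
    clear * - N n s L hn2 hs3 hL1 hq0 hq hx hL hn hn0
    by_cases hc : (10 : ℝ) ^ 8 ≤ N / n
    · simp only [hc, true_implies]
      refine prob_large (n := n) (N := N) (t := 2 / 3 * Real.sqrt L) (by simp) (by simp) (s + 1)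
        (by push_cast; nlinarith) (by positivity) (by positivity) (by linarith) ?_
      have h1 : Real.exp (-(L / 2)) ≤ Real.exp (-(2 / 3 * Real.sqrt L) ^ 2) := by
        rw [Real.exp_le_exp, mul_pow, hq]
        linarith
      have h2 : Real.exp (-(L / 2)) ^ 2 * (730 * ((N : ℝ) / n)) = 1 := by
        rw [← Real.exp_nat_mul, ← Real.exp_log (by positivity : 0 < 730 * ((N : ℝ) / n)), ← hL,
          ← Real.exp_add, Real.exp_eq_one_iff]
        push_cast
        ring
      have h3 : 144 ≤ (N : ℝ) / n * Real.exp (-(L / 2)) := by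
        refine le_trans (le_abs_self _) (abs_le_of_sq_le_sq ?_ (by positivity))
        rw [mul_pow]
        nlinarith
      have h4 : (N : ℝ) = N / n * n := by field_simp
      have h5 := mul_le_mul_of_nonneg_left h1 (Nat.cast_nonneg (α := ℝ) N)
      have h6 := mul_le_mul_of_nonneg_right h3 hn0.le
      refine le_trans ?_ h5
      rw [h4]
      linarith
    · simp only [hc, false_implies, not_true_eq_false, and_false, Set.ofPred_false,
        measureReal_empty]
      positivity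
  have p4 : (gm (Fin N) (Fin n)).real {g | ¬ ∀ y, ∃ a : Fin N → ℝ, ∑ i, a i • g i = y} = 0 := by
    have := ae_surj (κ := Fin n) N (by simpa using hnN)
    rw [ae_iff] at this
    rw [Measure.real, this, ENNReal.toReal_zero]
  have hsub : {g : Fin N → Fin n → ℝ | ¬ Cot g} ⊆
      (({g | ¬ Upper g (4 * Real.log ((N : ℝ) / n)) (16 * n)} ∪
        {g | Upper g (4 * Real.log ((N : ℝ) / n)) (16 * n) ∧ ¬ Lower g (s + 1) n}) ∪
        {g | Few g (s + 1) (26 * Real.sqrt L) ∧
          ¬ (10 ^ 8 ≤ (N : ℝ) / n → Large g (2 / 5 * Real.sqrt L))}) ∪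
        {g | ¬ ∀ y, ∃ a : Fin N → ℝ, ∑ i, a i • g i = y} := by
    intro g hg
    by_contra hc
    simp only [Set.mem_union, Set.mem_ofPred_eq, not_or, not_not, not_and] at hc
    obtain ⟨⟨⟨h1, h2⟩, h3⟩, h4⟩ := hc
    exact hg (cot_of_events g (n := n) (N := N) (by simp) hn0 hnN' hL hs2 hs3 h4 (hfew g h1)
      (h2 h1) (h3 (hfew g h1)))
  refine (measureReal_mono hsub (measure_ne_top _ _)).trans ?_
  refine (measureReal_union_le _ _).trans ?_
  rw [p4, add_zero]
  refine (measureReal_union_le _ _).trans ?_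
  refine (add_le_add (measureReal_union_le _ _) le_rfl).trans ?_
  have q1 : Real.exp (-((n : ℝ) / 2)) ≤ Real.exp (-(n / 10)) := Real.exp_le_exp.2 (by linarith)
  have q3 : Real.exp (-(n : ℝ)) ≤ Real.exp (-(n / 10)) := Real.exp_le_exp.2 (by linarith)
  clear * - N n s L p1 p2 p3 q1 q3
  linarith

theorem prob_cot {n N : ℕ} (hn : 2 ≤ n) (hnN : n ≤ N) :
    ENNReal.ofReal (1 - 3 * Real.exp (-(n / 10))) ≤ gm (Fin N) (Fin n) {g | Cot g} := by
  have h1 := prob_not_cot hn hnN
  have h2 := measureReal_union_le (μ := gm (Fin N) (Fin n)) {g | Cot g} {g | ¬ Cot g}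
  have h3 : {g : Fin N → Fin n → ℝ | Cot g} ∪ {g | ¬ Cot g} = Set.univ := by
    ext g
    simp [em]
  rw [h3, probReal_univ] at h2
  refine ENNReal.ofReal_le_of_le_toReal ?_
  rw [← Measure.real]
  linarith

end Pool.Agent.Work.MP_5c5849_an
end
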