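import Pool.Agent.Work.MP_5c5849_an.Walsh

/-! The key estimate on the cube. -/

open Finset

namespace Pool.Agent.Work.MP_5c5849_an

variable {m : ℕ}

lemma av_noise_sq_le (φ : (Fin m → Fin 2) → ℝ) :
    av (fun s => noise φ s ^ 2) ≤ av (fun s => φ s ^ 2) := by
  rw [parseval, parseval]
  refine sum_le_sum fun A _ => ?_
  rw [co_noise, mul_pow]
  have h1 : ((1 / 2 : ℝ) ^ A.card) ^ 2 ≤ 1 :=
    pow_le_one₀ (by positivity) (pow_le_one₀ (by norm_num) (by norm_num))
  have h2 := sq_nonneg (co φ A)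
  nlinarith

lemma abs_noise_le (φ : (Fin m → Fin 2) → ℝ) (s : Fin m → Fin 2) :
    |noise φ s| ≤ noise (fun s' => |φ s'|) s := by
  unfold noise
  rw [abs_le]
  constructor
  · rw [neg_le, ← neg_one_mul, ← av_const_mul]
    refine av_mono fun s' => ?_
    have := mul_le_mul_of_nonneg_left (neg_abs_le (φ s')) (ker_nonneg s s')
    linarith
  · exact av_mono fun s' => mul_le_mul_of_nonneg_left (le_abs_self _) (ker_nonneg s s')

lemma noise_sum {ι : Type*} (t : Finset ι) (φ : ι → (Fin m → Fin 2) → ℝ) (s : Fin m → Fin 2) :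
    noise (fun s' => ∑ i ∈ t, φ i s') s = ∑ i ∈ t, noise (φ i) s := by
  unfold noise
  simp only [mul_sum]
  rw [av_sum]

lemma sum_mul_le_of_sq {ι : Type*} (t : Finset ι) (f g : ι → ℝ) {a b : ℝ} (ha : 0 ≤ a)
    (hb : 0 ≤ b) (hf : ∑ i ∈ t, f i ^ 2 ≤ a ^ 2) (hg : ∑ i ∈ t, g i ^ 2 ≤ b ^ 2) :
    ∑ i ∈ t, f i * g i ≤ a * b := by
  refine le_trans (le_abs_self _) (abs_le_of_sq_le_sq ?_ (mul_nonneg ha hb))
  rw [mul_pow]
  exact (sum_mul_sq_le_sq_mul_sq _ f g).trans
    (mul_le_mul hf hg (sum_nonneg fun s _ => sq_nonneg _) (sq_nonneg _))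

/-- The nonlinear part of a lift is small in the Euclidean norm. -/
lemma av_nonlin_le {ι : Type*} [Fintype ι] (a : (Fin m → Fin 2) → ι → ℝ) {σ C M : ℝ}
    (hker : ∀ s, σ ^ 2 * ∑ i, (noise (fun s' => a s' i) s - (1 / 2) * a s i) ^ 2 ≤
      C ^ 2 * (∑ i, |noise (fun s' => a s' i) s - (1 / 2) * a s i|) ^ 2)
    (ha : av (fun s => (∑ i, |a s i|) ^ 2) ≤ M ^ 2) :
    av (fun s => σ ^ 2 * ∑ i, (a s i - rad (fun s' => a s' i) s) ^ 2) ≤ (6 * C * M) ^ 2 := by
  have h1 : ∀ s, (∑ i, |noise (fun s' => a s' i) s - (1 / 2) * a s i|) ^ 2 ≤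
      (3 / 2) * noise (fun s' => ∑ i, |a s' i|) s ^ 2 + (3 / 4) * (∑ i, |a s i|) ^ 2 := by
    intro s
    have h2 : ∑ i, |noise (fun s' => a s' i) s - (1 / 2) * a s i| ≤
        noise (fun s' => ∑ i, |a s' i|) s + (1 / 2) * ∑ i, |a s i| := by
      rw [noise_sum, mul_sum, ← sum_add_distrib]
      refine sum_le_sum fun i _ => ?_
      refine (abs_sub _ _).trans (add_le_add (abs_noise_le _ s) (le_of_eq ?_))
      rw [abs_mul, abs_of_pos (by norm_num : (0 : ℝ) < 1 / 2)]
    have h3 : 0 ≤ ∑ i, |noise (fun s' => a s' i) s - (1 / 2) * a s i| :=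
      sum_nonneg fun i _ => abs_nonneg _
    refine (pow_le_pow_left₀ h3 h2 2).trans ?_
    nlinarith [sq_nonneg (noise (fun s' => ∑ i, |a s' i|) s - ∑ i, |a s i|)]
  have h2 : av (fun s => (∑ i, |noise (fun s' => a s' i) s - (1 / 2) * a s i|) ^ 2) ≤
      (9 / 4) * M ^ 2 := by
    refine (av_mono h1).trans ?_
    rw [av_add, av_const_mul, av_const_mul]
    have := av_noise_sq_le (fun s' => ∑ i, |a s' i|)
    linarith
  have h3 : av (fun s => σ ^ 2 * ∑ i, (noise (fun s' => a s' i) s - (1 / 2) * a s i) ^ 2) ≤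
      C ^ 2 * ((9 / 4) * M ^ 2) := by
    refine (av_mono hker).trans ?_
    rw [av_const_mul]
    exact mul_le_mul_of_nonneg_left h2 (sq_nonneg _)
  rw [av_const_mul, av_sum] at h3 ⊢
  have h4 : ∑ i, av (fun s => (a s i - rad (fun s' => a s' i) s) ^ 2) ≤
      16 * ∑ i, av (fun s => (noise (fun s' => a s' i) s - (1 / 2) * a s i) ^ 2) := by
    rw [mul_sum]
    exact sum_le_sum fun i _ => av_sub_rad_sq_le (fun s' => a s' i)
  have h5 := mul_le_mul_of_nonneg_left h4 (sq_nonneg σ)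
  nlinarith

lemma av_ind_lin_mul_le (P : (Fin m → Fin 2) → Prop) [DecidablePred P] (u α : Fin m → ℝ)
    (hu : ∑ j, u j ^ 2 ≤ 1) :
    av (fun s => (if P s then 1 else 0) * ((∑ j, u j * sg s j) * (∑ j, α j * sg s j))) ≤
      Real.sqrt (av fun s => if P s then 1 else 0) * (4 * av (fun s => |∑ j, α j * sg s j|)) := by
  have hp : 0 ≤ av (fun s => if P s then (1 : ℝ) else 0) :=
    av_nonneg fun s => by split_ifs <;> norm_num
  have hα : 0 ≤ ∑ j, α j ^ 2 := sum_nonneg fun j _ => sq_nonneg _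
  have hu0 : 0 ≤ ∑ j, u j ^ 2 := sum_nonneg fun j _ => sq_nonneg _
  have h1 : av (fun s => ((∑ j, u j * sg s j) * (∑ j, α j * sg s j)) ^ 2) ≤
      (2 * Real.sqrt (∑ j, α j ^ 2)) ^ 2 := by
    rw [mul_pow, Real.sq_sqrt hα]
    simp only [mul_pow]
    have h2 := av_mul_le (fun s => (∑ j, u j * sg s j) ^ 2) (fun s => (∑ j, α j * sg s j) ^ 2)
      (a := 2) (b := 2 * ∑ j, α j ^ 2) (by norm_num) (by positivity) ?_ ?_
    · linarith
    · simp only [← pow_mul]
      have h3 := av_lin_four u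
      have h4 : (∑ j, u j ^ 2) ^ 2 ≤ 1 := pow_le_one₀ hu0 hu
      norm_num
      linarith
    · simp only [← pow_mul]
      have h3 := av_lin_four α
      have h4 := sq_nonneg (∑ j, α j ^ 2)
      norm_num
      nlinarith
  have h2 := av_mul_le (fun s => if P s then (1 : ℝ) else 0)
    (fun s => (∑ j, u j * sg s j) * (∑ j, α j * sg s j))
    (a := Real.sqrt (av fun s => if P s then 1 else 0)) (b := 2 * Real.sqrt (∑ j, α j ^ 2))
    (Real.sqrt_nonneg _) (by positivity) ?_ h1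
  · refine h2.trans (mul_le_mul_of_nonneg_left ?_ (Real.sqrt_nonneg _))
    have := sqrt_le_av_abs α
    linarith
  · rw [Real.sq_sqrt hp]
    refine le_of_eq ?_
    congr 1
    funext s
    split_ifs <;> norm_num

theorem core {ι : Type*} [Fintype ι] [DecidableEq ι] (a : (Fin m → Fin 2) → ι → ℝ)
    (u : ι → Fin m → ℝ) (I : (Fin m → Fin 2) → Finset ι) (q : (Fin m → Fin 2) → ℝ)
    {σ C A M : ℝ} (hσ : 0 ≤ σ) (hC : 0 ≤ C) (hA : 0 ≤ A) (hM : 0 ≤ M)
    (hu : ∀ i, ∑ j, u i j ^ 2 ≤ 1)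
    (hker : ∀ s, σ ^ 2 * ∑ i, (noise (fun s' => a s' i) s - (1 / 2) * a s i) ^ 2 ≤
      C ^ 2 * (∑ i, |noise (fun s' => a s' i) s - (1 / 2) * a s i|) ^ 2)
    (hI : ∀ s, ((I s).card : ℝ) ≤ σ ^ 2) (hq0 : ∀ s, 0 ≤ q s) (hq : av (fun s => q s ^ 2) ≤ 1)
    (hoff : ∀ s, ∀ i ∉ I s, |∑ j, u i j * sg s j| ≤ A * q s)
    (hon : ∀ s, ∑ i ∈ I s, (∑ j, u i j * sg s j) ^ 2 ≤ (A * σ * q s) ^ 2)
    (ha : av (fun s => (∑ i, |a s i|) ^ 2) ≤ M ^ 2) :
    av (fun s => ∑ i, (∑ j, u i j * sg s j) * a s i) ≤ (A + 4) * (1 + 6 * C) * M := by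
  set R : (Fin m → Fin 2) → ℝ :=
    fun s => Real.sqrt (∑ i, (a s i - rad (fun s' => a s' i) s) ^ 2) with hR
  have hR0 : ∀ s, 0 ≤ R s := fun s => Real.sqrt_nonneg _
  have hR2 : ∀ s, R s ^ 2 = ∑ i, (a s i - rad (fun s' => a s' i) s) ^ 2 := fun s =>
    Real.sq_sqrt (sum_nonneg fun i _ => sq_nonneg _)
  have hΨ : av (fun s => (σ * R s) ^ 2) ≤ (6 * C * M) ^ 2 := by
    simp only [mul_pow σ, hR2]
    exact av_nonlin_le a hker ha
  have h6 : 0 ≤ 6 * C * M := by positivity
  -- pointwise decomposition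
  have hdec : ∀ s, ∑ i, (∑ j, u i j * sg s j) * a s i ≤
      A * (q s * ∑ i, |a s i|) + A * (q s * (σ * R s)) +
        ∑ i, (if i ∈ I s then 1 else 0) *
          ((∑ j, u i j * sg s j) * rad (fun s' => a s' i) s) := by
    intro s
    have e1 : ∑ i, (∑ j, u i j * sg s j) * a s i =
        ∑ i ∈ (I s)ᶜ, (∑ j, u i j * sg s j) * a s i +
          ∑ i ∈ I s, (∑ j, u i j * sg s j) * (a s i - rad (fun s' => a s' i) s) +
          ∑ i ∈ I s, (∑ j, u i j * sg s j) * rad (fun s' => a s' i) s := by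
      rw [add_assoc, ← sum_add_distrib, ← sum_compl_add_sum (I s)]
      congr 1
      exact sum_congr rfl fun i _ => by ring
    have e2 : ∑ i, (if i ∈ I s then (1 : ℝ) else 0) *
          ((∑ j, u i j * sg s j) * rad (fun s' => a s' i) s) =
        ∑ i ∈ I s, (∑ j, u i j * sg s j) * rad (fun s' => a s' i) s := by
      simp only [ite_mul, one_mul, zero_mul]
      rw [sum_ite_mem, univ_inter]
    rw [e1, e2]
    refine add_le_add (add_le_add ?_ ?_) le_rfl
    · calc ∑ i ∈ (I s)ᶜ, (∑ j, u i j * sg s j) * a s i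
          ≤ ∑ i ∈ (I s)ᶜ, A * q s * |a s i| := by
            refine sum_le_sum fun i hi => (le_abs_self _).trans ?_
            rw [abs_mul]
            exact mul_le_mul_of_nonneg_right (hoff s i (mem_compl.1 hi)) (abs_nonneg _)
        _ ≤ ∑ i, A * q s * |a s i| :=
            sum_le_sum_of_subset_of_nonneg (subset_univ _) fun i _ _ => by
              have := hq0 s
              positivity
        _ = A * (q s * ∑ i, |a s i|) := by rw [← mul_sum, mul_assoc]
    · have h1 := sum_mul_le_of_sq (I s) (fun i => ∑ j, u i j * sg s j)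
        (fun i => a s i - rad (fun s' => a s' i) s) (a := A * σ * q s) (b := R s)
        (by have := hq0 s; positivity) (hR0 s) (hon s) ?_
      · refine h1.trans (le_of_eq (by ring))
      · rw [hR2]
        exact sum_le_sum_of_subset_of_nonneg (subset_univ _) fun i _ _ => sq_nonneg _
  refine (av_mono hdec).trans ?_
  rw [av_add, av_add, av_const_mul, av_const_mul, av_sum]
  have t1 : av (fun s => q s * ∑ i, |a s i|) ≤ 1 * M :=
    av_mul_le _ _ zero_le_one hM (by simpa using hq) ha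
  have t2 : av (fun s => q s * (σ * R s)) ≤ 1 * (6 * C * M) :=
    av_mul_le _ _ zero_le_one h6 (by simpa using hq) hΨ
  set c : ι → ℝ := fun i => Real.sqrt (av fun s => if i ∈ I s then 1 else 0) with hc
  have hp0 : ∀ i, 0 ≤ av (fun s => if i ∈ I s then (1 : ℝ) else 0) := fun i =>
    av_nonneg fun s => by split_ifs <;> norm_num
  have hc0 : ∀ i, 0 ≤ c i := fun i => Real.sqrt_nonneg _
  have hc1 : ∀ i, c i ≤ 1 := fun i => by
    refine Real.sqrt_le_one.2 ?_
    exact (av_mono fun s => by split_ifs <;> norm_num).trans (av_const (m := m) 1).le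
  have hc2 : ∑ i, c i ^ 2 ≤ σ ^ 2 := by
    simp only [hc, Real.sq_sqrt (hp0 _)]
    rw [← av_sum, ← av_const (m := m) (σ ^ 2)]
    refine av_mono fun s => ?_
    rw [sum_ite_mem, univ_inter]
    simpa using hI s
  have t3 : ∑ i, av (fun s => (if i ∈ I s then (1 : ℝ) else 0) *
        ((∑ j, u i j * sg s j) * rad (fun s' => a s' i) s)) ≤ 4 * (M + 6 * C * M) := by
    calc _ ≤ ∑ i, c i * (4 * av (fun s => |rad (fun s' => a s' i) s|)) :=
          sum_le_sum fun i _ =>
            av_ind_lin_mul_le (fun s => i ∈ I s) (u i) (fun j => co (fun s' => a s' i) {j}) (hu i)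
      _ = 4 * av (fun s => ∑ i, c i * |rad (fun s' => a s' i) s|) := by
          rw [av_sum, mul_sum]
          refine sum_congr rfl fun i _ => ?_
          rw [av_const_mul]
          ring
      _ ≤ 4 * av (fun s => ∑ i, |a s i| + σ * R s) := by
          refine mul_le_mul_of_nonneg_left (av_mono fun s => ?_) (by norm_num)
          have h1 := sum_mul_le_of_sq univ c (fun i => |a s i - rad (fun s' => a s' i) s|)
            hσ (hR0 s) hc2 (by simp only [sq_abs]; exact (hR2 s).ge)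
          refine le_trans ?_ (add_le_add le_rfl h1)
          rw [← sum_add_distrib]
          refine sum_le_sum fun i _ => ?_
          have h2 : |rad (fun s' => a s' i) s| ≤ |a s i| + |a s i - rad (fun s' => a s' i) s| := by
            have := abs_sub (a s i) (a s i - rad (fun s' => a s' i) s)
            simpa using this
          have h3 := mul_le_mul_of_nonneg_left h2 (hc0 i)
          have h4 := mul_le_mul_of_nonneg_right (hc1 i) (abs_nonneg (a s i))
          linarith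
      _ ≤ 4 * (M + 6 * C * M) := by
          refine mul_le_mul_of_nonneg_left ?_ (by norm_num)
          rw [av_add]
          exact add_le_add (av_le_of_sq _ hM ha) (av_le_of_sq _ h6 hΨ)
  have t1' := mul_le_mul_of_nonneg_left t1 hA
  have t2' := mul_le_mul_of_nonneg_left t2 hA
  nlinarith

end Pool.Agent.Work.MP_5c5849_an
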