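import Pool.Agent.Work.MP_5c5849_an.Core

/-! The deterministic cotype 2 criterion for quotients of `ℓ₁`. -/

open Finset
open scoped Pointwise

namespace Pool.Agent.Work.MP_5c5849_an

variable {ι κ : Type*} [Fintype ι] [Fintype κ]

/-- The symmetric convex hull of the vectors `g i`. -/
def body (g : ι → κ → ℝ) : Set (κ → ℝ) := convexHull ℝ (Set.range g ∪ Set.range (-g))

omit [Fintype ι] [Fintype κ] in
lemma convex_body (g : ι → κ → ℝ) : Convex ℝ (body g) := convex_convexHull _ _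

omit [Fintype ι] [Fintype κ] in
lemma mem_body (g : ι → κ → ℝ) (i : ι) : g i ∈ body g :=
  subset_convexHull _ _ (Or.inl ⟨i, rfl⟩)

omit [Fintype ι] [Fintype κ] in
lemma neg_mem_body (g : ι → κ → ℝ) (i : ι) : -g i ∈ body g :=
  subset_convexHull _ _ (Or.inr ⟨i, rfl⟩)

omit [Fintype ι] [Fintype κ] in
lemma zero_mem_body [Nonempty ι] (g : ι → κ → ℝ) : (0 : κ → ℝ) ∈ body g := by
  obtain ⟨i⟩ := ‹Nonempty ι›
  have := convex_body g (mem_body g i) (neg_mem_body g i) (a := 1 / 2) (b := 1 / 2)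
    (by norm_num) (by norm_num) (by norm_num)
  simpa using this

omit [Fintype κ] in
lemma sum_mem_body [Nonempty ι] (g : ι → κ → ℝ) (a : ι → ℝ) (ha : ∑ i, |a i| ≤ 1) :
    ∑ i, a i • g i ∈ body g := by
  have h := (convex_body g).sum_mem (t := (univ : Finset (Option ι)))
    (w := fun o => o.elim (1 - ∑ i, |a i|) (fun i => |a i|))
    (z := fun o => o.elim 0 (fun i => if 0 ≤ a i then g i else -g i)) ?_ ?_ ?_
  · rw [Fintype.sum_option] at h
    simp only [Option.elim, smul_zero, zero_add] at h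
    convert h using 2 with i
    split_ifs with hi
    · rw [abs_of_nonneg hi]
    · rw [abs_of_neg (not_le.1 hi), neg_smul_neg]
  · rintro (_ | i) _
    · simpa using ha
    · simp
  · rw [Fintype.sum_option]
    simp
  · rintro (_ | i) _
    · exact zero_mem_body g
    · simp only [Option.elim]
      split_ifs
      · exact mem_body g i
      · exact neg_mem_body g i

omit [Fintype κ] in
lemma exists_coeff (g : ι → κ → ℝ) {y : κ → ℝ} (hy : y ∈ body g) :
    ∃ a : ι → ℝ, ∑ i, |a i| ≤ 1 ∧ ∑ i, a i • g i = y := by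
  classical
  refine convexHull_min (t := {y | ∃ a : ι → ℝ, ∑ i, |a i| ≤ 1 ∧ ∑ i, a i • g i = y}) ?_ ?_ hy
  · rintro _ (⟨i, rfl⟩ | ⟨i, rfl⟩)
    · refine ⟨Pi.single i 1, ?_, ?_⟩
      · rw [sum_eq_single i (fun b _ hb => by simp [hb]) (by simp)]
        simp
      · rw [sum_eq_single i (fun b _ hb => by simp [hb]) (by simp)]
        simp
    · refine ⟨Pi.single i (-1), ?_, ?_⟩
      · rw [sum_eq_single i (fun b _ hb => by simp [hb]) (by simp)]
        simp
      · rw [sum_eq_single i (fun b _ hb => by simp [hb]) (by simp)]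
        simp
  · rintro _ ⟨a, ha, rfl⟩ _ ⟨b, hb, rfl⟩ s t hs ht hst
    refine ⟨fun i => s * a i + t * b i, ?_, ?_⟩
    · calc ∑ i, |s * a i + t * b i| ≤ ∑ i, (s * |a i| + t * |b i|) := by
            refine sum_le_sum fun i _ => (abs_add_le _ _).trans (le_of_eq ?_)
            rw [abs_mul, abs_mul, abs_of_nonneg hs, abs_of_nonneg ht]
        _ = s * ∑ i, |a i| + t * ∑ i, |b i| := by rw [sum_add_distrib, mul_sum, mul_sum]
        _ ≤ s * 1 + t * 1 :=
            add_le_add (mul_le_mul_of_nonneg_left ha hs) (mul_le_mul_of_nonneg_left hb ht)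
        _ = 1 := by linarith
    · simp only [add_smul, mul_smul, sum_add_distrib, smul_sum]

omit [Fintype κ] in
lemma absorbent_body [Nonempty ι] (g : ι → κ → ℝ) (hs : ∀ y, ∃ a : ι → ℝ, ∑ i, a i • g i = y) :
    Absorbent ℝ (body g) := by
  intro y
  obtain ⟨a, rfl⟩ := hs y
  refine Absorbs.of_norm ⟨∑ i, |a i| + 1, fun c hc => ?_⟩
  have h0 : 0 ≤ ∑ i, |a i| := sum_nonneg fun i _ => abs_nonneg _
  rw [Real.norm_eq_abs] at hc
  have hc0 : 0 < |c| := by linarith
  have hc1 : c ≠ 0 := abs_pos.1 hc0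
  rw [Set.singleton_subset_iff]
  refine ⟨∑ i, (a i / c) • g i, sum_mem_body g _ ?_, ?_⟩
  · simp only [abs_div]
    rw [← sum_div, div_le_one hc0]
    linarith
  · simp only [smul_sum, smul_smul]
    refine sum_congr rfl fun i _ => ?_
    rw [mul_div_cancel₀ _ hc1]

omit [Fintype κ] in
lemma exists_lift (g : ι → κ → ℝ) (hg : Absorbent ℝ (body g)) {y : κ → ℝ} {r : ℝ}
    (h : gauge (body g) y < r) : ∃ a : ι → ℝ, ∑ i, |a i| ≤ r ∧ ∑ i, a i • g i = y := by
  obtain ⟨b, hb0, hbr, z, hz, rfl⟩ := exists_lt_of_gauge_lt hg h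
  obtain ⟨a, ha, rfl⟩ := exists_coeff g hz
  refine ⟨fun i => b * a i, ?_, ?_⟩
  · simp only [abs_mul, abs_of_pos hb0]
    rw [← mul_sum]
    nlinarith
  · simp only [smul_sum, smul_smul]

omit [Fintype ι] in
lemma exists_norming (g : ι → κ → ℝ) (hg : Absorbent ℝ (body g)) (y : κ → ℝ) :
    ∃ x : κ → ℝ, (∀ i, |g i ⬝ᵥ x| ≤ 1) ∧ y ⬝ᵥ x = gauge (body g) y := by
  classical
  by_cases hy : y = 0
  · exact ⟨0, by simp, by simp [hy]⟩
  let f : (κ → ℝ) →ₗ.[ℝ] ℝ := LinearPMap.mkSpanSingleton y (gauge (body g) y) hy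
  obtain ⟨φ, hφ₁, hφ₂⟩ := exists_extension_of_le_sublinear f (gauge (body g))
    (fun c hc => gauge_smul_of_nonneg hc.le) (gauge_add_le (convex_body g) hg) (by
      rintro ⟨x, hx⟩
      obtain ⟨c, rfl⟩ := Submodule.mem_span_singleton.1 hx
      rw [LinearPMap.mkSpanSingleton'_apply]
      simp only [smul_eq_mul, RingHom.id_apply]
      obtain h | h := le_or_gt c 0
      · exact (mul_nonpos_of_nonpos_of_nonneg h (gauge_nonneg _)).trans (gauge_nonneg _)
      · rw [gauge_smul_of_nonneg h.le, smul_eq_mul])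
  have hφ₃ : φ y = gauge (body g) y :=
    (hφ₁ ⟨y, Submodule.mem_span_singleton_self _⟩).trans
      (LinearPMap.mkSpanSingleton'_apply_self _ _ _ _)
  have hrep : ∀ v : κ → ℝ, v ⬝ᵥ (fun k => φ (fun j => if k = j then 1 else 0)) = φ v := by
    intro v
    rw [φ.pi_apply_eq_sum_univ v]
    rfl
  refine ⟨fun k => φ (fun j => if k = j then 1 else 0), fun i => ?_, by rw [hrep, hφ₃]⟩
  rw [hrep, abs_le]
  constructor
  · have := (hφ₂ (-g i)).trans (gauge_le_one_of_mem (neg_mem_body g i))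
    rw [map_neg] at this
    linarith
  · exact (hφ₂ (g i)).trans (gauge_le_one_of_mem (mem_body g i))

lemma dot_sum_smul {τ : Type*} [Fintype τ] (p : κ → ℝ) (c : τ → ℝ) (x : τ → κ → ℝ) :
    p ⬝ᵥ (∑ j, c j • x j) = ∑ j, c j * (p ⬝ᵥ x j) := by
  rw [dotProduct_sum]
  simp only [dotProduct_smul, smul_eq_mul]

theorem det_cotype [Nonempty ι] (g : ι → κ → ℝ) (hs : ∀ y, ∃ a : ι → ℝ, ∑ i, a i • g i = y)
    {ρ : Type*} [Fintype ρ] (B : ρ → κ → ℝ) {σ C A : ℝ} (hσ : 0 ≤ σ) (hC : 0 ≤ C) (hA : 0 ≤ A)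
    (hker : ∀ a : ι → ℝ, ∑ i, a i • g i = 0 → σ ^ 2 * ∑ i, a i ^ 2 ≤ C ^ 2 * (∑ i, |a i|) ^ 2)
    (hb : ∀ x : κ → ℝ, (∀ i, |g i ⬝ᵥ x| ≤ 1) → ∑ r, (B r ⬝ᵥ x) ^ 2 ≤ 1)
    (hc : ∀ v : κ → ℝ, ∃ I : Finset ι, (I.card : ℝ) ≤ σ ^ 2 ∧
      (∀ i ∉ I, (g i ⬝ᵥ v) ^ 2 ≤ A ^ 2 * ∑ r, (B r ⬝ᵥ v) ^ 2) ∧
      ∑ i ∈ I, (g i ⬝ᵥ v) ^ 2 ≤ A ^ 2 * σ ^ 2 * ∑ r, (B r ⬝ᵥ v) ^ 2)
    {m : ℕ} (y : Fin m → κ → ℝ) :
    Real.sqrt (∑ j, gauge (body g) (y j) ^ 2) ≤ (A + 4) * (1 + 6 * C) *
      Real.sqrt (av fun s => gauge (body g) (∑ j, sg s j • y j) ^ 2) := by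
  classical
  have hg := absorbent_body g hs
  set S := Real.sqrt (∑ j, gauge (body g) (y j) ^ 2) with hS
  set M := Real.sqrt (av fun s => gauge (body g) (∑ j, sg s j • y j) ^ 2) with hM
  have hM0 : 0 ≤ M := Real.sqrt_nonneg _
  have hK : 0 < (A + 4) * (1 + 6 * C) := by positivity
  have hS0 : 0 ≤ S := Real.sqrt_nonneg _
  rcases hS0.eq_or_lt with h0 | h0
  · rw [← h0]
    positivity
  have hS2 : S ^ 2 = ∑ j, gauge (body g) (y j) ^ 2 :=
    Real.sq_sqrt (sum_nonneg fun j _ => sq_nonneg _)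
  have hM2 : M ^ 2 = av fun s => gauge (body g) (∑ j, sg s j • y j) ^ 2 :=
    Real.sq_sqrt (av_nonneg fun s => sq_nonneg _)
  choose x hx1 hx2 using fun j => exists_norming g hg (y j)
  set lam : Fin m → ℝ := fun j => gauge (body g) (y j) / S with hlam
  have hlam2 : ∑ j, lam j ^ 2 = 1 := by
    simp only [hlam, div_pow]
    rw [← sum_div, ← hS2, div_self (by positivity)]
  set v : (Fin m → Fin 2) → κ → ℝ := fun s => ∑ j, (sg s j * lam j) • x j with hv
  have hdot : ∀ (p : κ → ℝ) s, p ⬝ᵥ v s = ∑ j, (lam j * (p ⬝ᵥ x j)) * sg s j := by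
    intro p s
    simp only [hv]
    rw [dot_sum_smul]
    exact sum_congr rfl fun j _ => by ring
  choose I hI1 hI2 hI3 using fun s => hc (v s)
  set q : (Fin m → Fin 2) → ℝ := fun s => Real.sqrt (∑ r, (B r ⬝ᵥ v s) ^ 2) with hq
  have hq0 : ∀ s, 0 ≤ q s := fun s => Real.sqrt_nonneg _
  have hq2 : ∀ s, q s ^ 2 = ∑ r, (B r ⬝ᵥ v s) ^ 2 := fun s =>
    Real.sq_sqrt (sum_nonneg fun r _ => sq_nonneg _)
  have hq1 : av (fun s => q s ^ 2) ≤ 1 := by
    simp only [hq2, hdot]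
    rw [av_sum]
    simp only [av_lin_sq, mul_pow]
    rw [sum_comm, ← hlam2]
    refine sum_le_sum fun j _ => ?_
    rw [← mul_sum]
    exact mul_le_of_le_one_right (sq_nonneg _) (hb _ (hx1 j))
  refine le_of_forall_pos_le_add fun ε hε => ?_
  set δ := ε / ((A + 4) * (1 + 6 * C)) with hδ
  have hδ0 : 0 < δ := div_pos hε hK
  choose a ha1 ha2 using fun s : Fin m → Fin 2 =>
    exists_lift g hg (y := ∑ j, sg s j • y j) (lt_add_of_pos_right _ hδ0)
  have hcoord : ∀ s k, ∑ i, a s i * g i k = ∑ j, y j k * sg s j := by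
    intro s k
    have := congrFun (ha2 s) k
    simp only [Finset.sum_apply, Pi.smul_apply, smul_eq_mul] at this
    rw [this]
    exact sum_congr rfl fun j _ => mul_comm _ _
  have key := core a (fun i j => lam j * (g i ⬝ᵥ x j)) I q (M := M + δ) hσ hC hA (by positivity)
    ?_ ?_ hI1 hq0 hq1 ?_ ?_ ?_
  · have e1 : (av fun s => ∑ i, (∑ j, lam j * (g i ⬝ᵥ x j) * sg s j) * a s i) = S := by
      have e2 : (fun s => ∑ i, (∑ j, lam j * (g i ⬝ᵥ x j) * sg s j) * a s i) =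
          fun s => ∑ k, ∑ j, (lam j * (y k ⬝ᵥ x j)) * (sg s k * sg s j) := by
        funext s
        simp only [← hdot]
        have e3 : ∑ i, (g i ⬝ᵥ v s) * a s i = v s ⬝ᵥ (∑ i, a s i • g i) := by
          rw [dot_sum_smul]
          exact sum_congr rfl fun i _ => by rw [dotProduct_comm, mul_comm]
        rw [e3, ha2, dot_sum_smul]
        refine sum_congr rfl fun k _ => ?_
        rw [dotProduct_comm, hdot, mul_sum]
        exact sum_congr rfl fun j _ => by ring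
      rw [e2, av_sum]
      simp only [av_sum, av_const_mul, av_sg_mul]
      have e4 : ∀ k : Fin m, ∑ j, lam j * (y k ⬝ᵥ x j) * (if k = j then 1 else 0) =
          gauge (body g) (y k) ^ 2 / S := by
        intro k
        rw [sum_eq_single k (fun b _ hb => by simp [Ne.symm hb]) (by simp), hx2]
        simp only [hlam, if_true]
        ring
      simp only [e4]
      rw [← sum_div, ← hS2]
      field_simp
    rw [e1] at key
    refine key.trans (le_of_eq ?_)
    rw [mul_add, hδ]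
    field_simp
  · intro i
    rw [← hlam2]
    refine sum_le_sum fun j _ => ?_
    rw [mul_pow]
    refine mul_le_of_le_one_right (sq_nonneg _) ?_
    rw [← sq_abs]
    exact pow_le_one₀ (abs_nonneg _) (hx1 j i)
  · intro s
    refine hker _ ?_
    funext k
    simp only [Finset.sum_apply, Pi.smul_apply, smul_eq_mul, Pi.zero_apply, sub_mul]
    rw [sum_sub_distrib]
    have e1 : ∑ i, noise (fun s' => a s' i) s * g i k =
        noise (fun s' => ∑ i, a s' i * g i k) s := by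
      rw [noise_sum]
      refine sum_congr rfl fun i _ => ?_
      unfold noise
      rw [← av_mul_const]
      simp only [mul_assoc]
    rw [e1]
    simp only [hcoord, noise_lin, mul_assoc]
    rw [← mul_sum, hcoord, sub_self]
  · intro s i hi
    rw [← hdot]
    refine abs_le_of_sq_le_sq ?_ (mul_nonneg hA (hq0 s))
    rw [mul_pow, hq2]
    exact hI2 s i hi
  · intro s
    simp only [← hdot]
    rw [mul_pow, mul_pow, hq2]
    exact hI3 s
  · have h1 : ∀ s, (∑ i, |a s i|) ^ 2 ≤ gauge (body g) (∑ j, sg s j • y j) ^ 2 +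
        2 * δ * gauge (body g) (∑ j, sg s j • y j) + δ ^ 2 := by
      intro s
      refine (pow_le_pow_left₀ (sum_nonneg fun i _ => abs_nonneg _) (ha1 s) 2).trans
        (le_of_eq (by ring))
    refine (av_mono h1).trans ?_
    rw [av_add, av_add, av_const_mul, av_const, ← hM2]
    have h2 := av_le_of_sq (fun s => gauge (body g) (∑ j, sg s j • y j)) hM0 hM2.ge
    nlinarith

end Pool.Agent.Work.MP_5c5849_an
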