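import Mathlib

/-! Walsh analysis on the discrete cube `Fin m → Fin 2`. -/

open Finset

namespace Pool.Agent.Work.MP_5c5849_an

variable {m : ℕ}

/-- The `j`-th sign. -/
def sg (s : Fin m → Fin 2) (j : Fin m) : ℝ := (-1 : ℝ) ^ (s j : ℕ)

/-- Average over the cube. -/
noncomputable def av (f : (Fin m → Fin 2) → ℝ) : ℝ := (∑ s, f s) / 2 ^ m

lemma sg_sq (s : Fin m → Fin 2) (j : Fin m) : sg s j * sg s j = 1 := by
  unfold sg
  rw [← mul_pow]
  simp

lemma abs_sg (s : Fin m → Fin 2) (j : Fin m) : |sg s j| = 1 := by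
  unfold sg
  simp

lemma av_add (f g : (Fin m → Fin 2) → ℝ) : av (fun s => f s + g s) = av f + av g := by
  unfold av
  rw [sum_add_distrib, add_div]

lemma av_sub (f g : (Fin m → Fin 2) → ℝ) : av (fun s => f s - g s) = av f - av g := by
  unfold av
  rw [sum_sub_distrib, sub_div]

lemma av_const_mul (c : ℝ) (f : (Fin m → Fin 2) → ℝ) : av (fun s => c * f s) = c * av f := by
  unfold av
  rw [← mul_sum, mul_div_assoc]

lemma av_mul_const (c : ℝ) (f : (Fin m → Fin 2) → ℝ) : av (fun s => f s * c) = av f * c := by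
  unfold av
  rw [← sum_mul]
  ring

lemma av_const (c : ℝ) : av (fun _ : Fin m → Fin 2 => c) = c := by
  unfold av
  simp

lemma av_mono {f g : (Fin m → Fin 2) → ℝ} (h : ∀ s, f s ≤ g s) : av f ≤ av g := by
  unfold av
  exact div_le_div_of_nonneg_right (sum_le_sum fun s _ => h s) (by positivity)

lemma av_nonneg {f : (Fin m → Fin 2) → ℝ} (h : ∀ s, 0 ≤ f s) : 0 ≤ av f := by
  unfold av
  exact div_nonneg (sum_nonneg fun s _ => h s) (by positivity)

lemma av_sum {ι : Type*} (t : Finset ι) (f : ι → (Fin m → Fin 2) → ℝ) :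
    av (fun s => ∑ i ∈ t, f i s) = ∑ i ∈ t, av (f i) := by
  unfold av
  rw [sum_comm, sum_div]

lemma av_comm (f : (Fin m → Fin 2) → (Fin m → Fin 2) → ℝ) :
    av (fun s => av (fun s' => f s s')) = av (fun s' => av (fun s => f s s')) := by
  unfold av
  rw [← sum_div, ← sum_div, sum_comm]

lemma av_mul_sq_le (f g : (Fin m → Fin 2) → ℝ) :
    av (fun s => f s * g s) ^ 2 ≤ av (fun s => f s ^ 2) * av (fun s => g s ^ 2) := by
  unfold av
  rw [div_pow, div_mul_div_comm, ← sq]
  exact div_le_div_of_nonneg_right (sum_mul_sq_le_sq_mul_sq _ _ _) (by positivity)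

lemma av_mul_le (f g : (Fin m → Fin 2) → ℝ) {a b : ℝ} (ha : 0 ≤ a) (hb : 0 ≤ b)
    (hf : av (fun s => f s ^ 2) ≤ a ^ 2) (hg : av (fun s => g s ^ 2) ≤ b ^ 2) :
    av (fun s => f s * g s) ≤ a * b := by
  refine le_trans (le_abs_self _) (abs_le_of_sq_le_sq ?_ (mul_nonneg ha hb))
  rw [mul_pow]
  exact (av_mul_sq_le f g).trans
    (mul_le_mul hf hg (av_nonneg fun s => sq_nonneg _) (sq_nonneg _))

lemma av_le_of_sq (f : (Fin m → Fin 2) → ℝ) {a : ℝ} (ha : 0 ≤ a)
    (hf : av (fun s => f s ^ 2) ≤ a ^ 2) : av f ≤ a := by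
  have := av_mul_le f (fun _ => 1) ha zero_le_one hf (by simp [av_const])
  simpa using this

lemma av_prod (f : Fin m → Fin 2 → ℝ) :
    av (fun s => ∏ j, f j (s j)) = ∏ j, ((f j 0 + f j 1) / 2) := by
  unfold av
  rw [← Fintype.prod_sum, prod_div_distrib]
  simp [Fin.sum_univ_two]

/-- The Walsh function of a set of coordinates. -/
def wal (A : Finset (Fin m)) (s : Fin m → Fin 2) : ℝ := ∏ j ∈ A, sg s j

lemma wal_eq (A : Finset (Fin m)) (s : Fin m → Fin 2) :
    wal A s = ∏ j, (if j ∈ A then (-1 : ℝ) ^ (s j : ℕ) else 1) := by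
  unfold wal sg
  rw [prod_ite_mem]
  simp

lemma wal_single (j : Fin m) (s : Fin m → Fin 2) : wal {j} s = sg s j := by
  simp [wal]

lemma av_wal_mul (A B : Finset (Fin m)) :
    av (fun s => wal A s * wal B s) = if A = B then 1 else 0 := by
  have h : (fun s => wal A s * wal B s) = fun s : Fin m → Fin 2 =>
      ∏ j, ((if j ∈ A then (-1 : ℝ) ^ (s j : ℕ) else 1) *
        (if j ∈ B then (-1 : ℝ) ^ (s j : ℕ) else 1)) := by
    funext s
    rw [wal_eq, wal_eq, prod_mul_distrib]
  rw [h, av_prod (fun j b => (if j ∈ A then (-1 : ℝ) ^ (b : ℕ) else 1) *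
        (if j ∈ B then (-1 : ℝ) ^ (b : ℕ) else 1))]
  split_ifs with hAB
  · subst hAB
    refine prod_eq_one fun j _ => ?_
    split_ifs <;> norm_num
  · obtain ⟨j, hj⟩ : ∃ j, ¬ (j ∈ A ↔ j ∈ B) := by
      by_contra hc
      push Not at hc
      exact hAB (Finset.ext hc)
    refine prod_eq_zero (mem_univ j) ?_
    by_cases h1 : j ∈ A <;> by_cases h2 : j ∈ B <;> simp [h1, h2] at hj ⊢

lemma av_sg_mul (j k : Fin m) : av (fun s => sg s j * sg s k) = if j = k then 1 else 0 := by
  have := av_wal_mul {j} {k}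
  simpa [wal_single] using this

lemma sum_wal_mul (s s' : Fin m → Fin 2) :
    ∑ A : Finset (Fin m), wal A s * wal A s' = if s = s' then 2 ^ m else 0 := by
  have h : ∑ A : Finset (Fin m), wal A s * wal A s' = ∏ j, (1 + sg s j * sg s' j) := by
    rw [prod_one_add, powerset_univ]
    refine sum_congr rfl fun A _ => ?_
    unfold wal
    rw [prod_mul_distrib]
  rw [h]
  split_ifs with hs
  · subst hs
    simp [sg_sq, one_add_one_eq_two]
  · obtain ⟨j, hj⟩ := Function.ne_iff.1 hs
    refine prod_eq_zero (mem_univ j) ?_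
    unfold sg
    generalize s j = a at hj
    generalize s' j = b at hj
    fin_cases a <;> fin_cases b <;> simp at hj ⊢

/-- Walsh coefficient. -/
noncomputable def co (φ : (Fin m → Fin 2) → ℝ) (A : Finset (Fin m)) : ℝ :=
  av (fun s => φ s * wal A s)

lemma parseval (φ : (Fin m → Fin 2) → ℝ) :
    av (fun s => φ s ^ 2) = ∑ A : Finset (Fin m), co φ A ^ 2 := by
  have h2 : (0 : ℝ) < 2 ^ m := by positivity
  have h : ∀ A : Finset (Fin m), co φ A ^ 2 =
      (∑ s, ∑ s', φ s * φ s' * (wal A s * wal A s')) / (2 ^ m * 2 ^ m) := by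
    intro A
    unfold co av
    rw [div_pow, sq, sq, sum_mul_sum]
    congr 1
    refine sum_congr rfl fun s _ => sum_congr rfl fun s' _ => by ring
  simp only [h]
  rw [← sum_div, sum_comm]
  have h3 : ∀ s, ∑ A : Finset (Fin m), ∑ s', φ s * φ s' * (wal A s * wal A s') =
      φ s ^ 2 * 2 ^ m := by
    intro s
    rw [sum_comm]
    simp only [← mul_sum, sum_wal_mul]
    rw [sum_eq_single s (fun b _ hb => by simp [Ne.symm hb]) (by simp)]
    simp [sq]
  simp only [h3]
  unfold av
  rw [← sum_mul]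
  field_simp

/-- The kernel of the noise operator with parameter `1/2`. -/
noncomputable def ker (s s' : Fin m → Fin 2) : ℝ := ∏ j, (1 + (1 / 2) * (sg s j * sg s' j))

/-- The noise operator with parameter `1/2`. -/
noncomputable def noise (φ : (Fin m → Fin 2) → ℝ) (s : Fin m → Fin 2) : ℝ :=
  av (fun s' => ker s s' * φ s')

lemma ker_symm (s s' : Fin m → Fin 2) : ker s s' = ker s' s := by
  unfold ker
  simp only [mul_comm (sg s _)]

lemma ker_nonneg (s s' : Fin m → Fin 2) : 0 ≤ ker s s' := by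
  refine prod_nonneg fun j _ => ?_
  have h : |sg s j * sg s' j| = 1 := by rw [abs_mul, abs_sg, abs_sg, one_mul]
  have := neg_abs_le (sg s j * sg s' j)
  linarith

lemma noise_wal (A : Finset (Fin m)) (s : Fin m → Fin 2) :
    noise (wal A) s = (1 / 2) ^ A.card * wal A s := by
  unfold noise
  have h : (fun s' => ker s s' * wal A s') = fun s' : Fin m → Fin 2 =>
      ∏ j, ((1 + (1 / 2) * (sg s j * (-1 : ℝ) ^ (s' j : ℕ))) *
        (if j ∈ A then (-1 : ℝ) ^ (s' j : ℕ) else 1)) := by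
    funext s'
    rw [wal_eq, prod_mul_distrib]
    rfl
  rw [h, av_prod (fun j b => (1 + (1 / 2) * (sg s j * (-1 : ℝ) ^ (b : ℕ))) *
        (if j ∈ A then (-1 : ℝ) ^ (b : ℕ) else 1))]
  have h2 : (1 / 2 : ℝ) ^ A.card * wal A s = ∏ j, (if j ∈ A then (1 / 2) * sg s j else 1) := by
    rw [prod_ite_mem, univ_inter, prod_mul_distrib, prod_const]
    rfl
  rw [h2]
  refine prod_congr rfl fun j _ => ?_
  split_ifs
  · simp
    ring
  · simp
    ring

lemma av_ker (s : Fin m → Fin 2) : av (fun s' => ker s s') = 1 := by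
  have := noise_wal (∅ : Finset (Fin m)) s
  simpa [noise, wal] using this

lemma co_noise (φ : (Fin m → Fin 2) → ℝ) (A : Finset (Fin m)) :
    co (noise φ) A = (1 / 2) ^ A.card * co φ A := by
  unfold co
  have h1 : (fun s => noise φ s * wal A s) =
      fun s => av (fun s' => φ s' * (ker s' s * wal A s)) := by
    funext s
    unfold noise
    rw [← av_mul_const]
    congr 1
    funext s'
    rw [ker_symm s s']
    ring
  rw [h1, av_comm, ← av_const_mul]
  congr 1
  funext s'
  rw [av_const_mul]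
  have := noise_wal A s'
  unfold noise at this
  rw [this]
  ring

lemma noise_lin (α : Fin m → ℝ) (s : Fin m → Fin 2) :
    noise (fun s => ∑ j, α j * sg s j) s = (1 / 2) * ∑ j, α j * sg s j := by
  unfold noise
  simp only [mul_sum]
  rw [av_sum]
  refine sum_congr rfl fun j _ => ?_
  have := noise_wal {j} s
  unfold noise at this
  simp only [wal_single, card_singleton, pow_one] at this
  have h2 : (fun s' => ker s s' * (α j * sg s' j)) = fun s' => α j * (ker s s' * sg s' j) := by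
    funext s'
    ring
  rw [h2, av_const_mul, this]
  ring

/-- The Rademacher projection. -/
noncomputable def rad (φ : (Fin m → Fin 2) → ℝ) (s : Fin m → Fin 2) : ℝ :=
  ∑ j, co φ {j} * sg s j

lemma co_rad (φ : (Fin m → Fin 2) → ℝ) (A : Finset (Fin m)) :
    co (rad φ) A = if A.card = 1 then co φ A else 0 := by
  have h : co (rad φ) A = ∑ j, co φ {j} * (if {j} = A then 1 else 0) := by
    unfold rad
    conv_lhs => unfold co
    simp only [sum_mul]
    rw [av_sum]
    refine sum_congr rfl fun j _ => ?_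
    rw [← av_wal_mul, ← av_const_mul]
    congr 1
    funext s
    rw [wal_single]
    unfold co
    ring
  rw [h]
  split_ifs with hA
  · obtain ⟨j, rfl⟩ := card_eq_one.1 hA
    rw [sum_eq_single j (fun b _ hb => by simp [hb]) (by simp)]
    simp
  · refine sum_eq_zero fun j _ => ?_
    rw [if_neg, mul_zero]
    rintro rfl
    simp at hA

lemma co_sub (φ ψ : (Fin m → Fin 2) → ℝ) (A : Finset (Fin m)) :
    co (fun s => φ s - ψ s) A = co φ A - co ψ A := by
  unfold co
  rw [← av_sub]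
  congr 1
  funext s
  ring

lemma co_const_mul (c : ℝ) (φ : (Fin m → Fin 2) → ℝ) (A : Finset (Fin m)) :
    co (fun s => c * φ s) A = c * co φ A := by
  unfold co
  rw [← av_const_mul]
  congr 1
  funext s
  ring

/-- The spectral gap estimate behind Pisier's lifting trick. -/
lemma av_sub_rad_sq_le (φ : (Fin m → Fin 2) → ℝ) :
    av (fun s => (φ s - rad φ s) ^ 2) ≤ 16 * av (fun s => (noise φ s - (1 / 2) * φ s) ^ 2) := by
  rw [parseval, parseval, mul_sum]
  refine sum_le_sum fun A _ => ?_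
  rw [co_sub, co_sub, co_rad, co_noise, co_const_mul]
  split_ifs with hA
  · rw [sub_self, zero_pow two_ne_zero]
    positivity
  · have h : (1 / 16 : ℝ) ≤ ((1 / 2) ^ A.card - 1 / 2) ^ 2 := by
      rcases Nat.lt_or_ge A.card 1 with h0 | h0
      · have : A.card = 0 := by omega
        rw [this]
        norm_num
      · have h2 : 2 ≤ A.card := by omega
        have h3 : (1 / 2 : ℝ) ^ A.card ≤ (1 / 2) ^ 2 :=
          pow_le_pow_of_le_one (by norm_num) (by norm_num) h2
        have h4 : (0 : ℝ) ≤ (1 / 2) ^ A.card := by positivity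
        nlinarith
    have h5 := sq_nonneg (co φ A)
    nlinarith

lemma av_lin_sq (α : Fin m → ℝ) : av (fun s => (∑ j, α j * sg s j) ^ 2) = ∑ j, α j ^ 2 := by
  have h : (fun s => (∑ j, α j * sg s j) ^ 2) =
      fun s => ∑ j, ∑ k, (α j * α k) * (sg s j * sg s k) := by
    funext s
    rw [sq, sum_mul_sum]
    refine sum_congr rfl fun j _ => sum_congr rfl fun k _ => by ring
  rw [h, av_sum]
  refine sum_congr rfl fun j _ => ?_
  rw [av_sum]
  simp only [av_const_mul, av_sg_mul]
  rw [sum_eq_single j (fun b _ hb => by simp [Ne.symm hb]) (by simp)]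
  simp [sq]

lemma av_succ (f : (Fin (m + 1) → Fin 2) → ℝ) :
    av f = av (fun s : Fin m → Fin 2 => (f (Fin.cons 0 s) + f (Fin.cons 1 s)) / 2) := by
  unfold av
  rw [← (Fin.consEquiv (fun _ : Fin (m + 1) => Fin 2)).sum_comp, Fintype.sum_prod_type,
    Fin.sum_univ_two, ← sum_div, sum_add_distrib, pow_succ]
  simp only [Fin.consEquiv, Equiv.coe_fn_mk]
  field_simp

lemma av_lin_four (α : Fin m → ℝ) :
    av (fun s => (∑ j, α j * sg s j) ^ 4) ≤ 3 * (∑ j, α j ^ 2) ^ 2 := by
  induction m with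
  | zero => simp [av]
  | succ m ih =>
    rw [av_succ]
    have h1 := ih (fun j => α j.succ)
    have h2 := av_lin_sq (fun j : Fin m => α j.succ)
    have h : (fun s : Fin m → Fin 2 =>
        ((∑ j, α j * sg (Fin.cons 0 s : Fin (m + 1) → Fin 2) j) ^ 4 +
          (∑ j, α j * sg (Fin.cons 1 s : Fin (m + 1) → Fin 2) j) ^ 4) / 2) =
        fun s => ((∑ j, α j.succ * sg s j) ^ 4 + 6 * α 0 ^ 2 * (∑ j, α j.succ * sg s j) ^ 2) +
          α 0 ^ 4 := by
      funext s
      simp only [Fin.sum_univ_succ, sg, Fin.cons_zero, Fin.cons_succ]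
      simp
      ring
    rw [h, av_add, av_add, av_const_mul, av_const, h2, Fin.sum_univ_succ]
    have h3 : 0 ≤ α 0 ^ 4 := by positivity
    nlinarith

/-- Khintchine's `L¹` inequality, with constant `2`. -/
lemma sqrt_le_av_abs (α : Fin m → ℝ) :
    Real.sqrt (∑ j, α j ^ 2) ≤ 2 * av (fun s => |∑ j, α j * sg s j|) := by
  set σ := Real.sqrt (∑ j, α j ^ 2) with hσ
  have hσ0 : 0 ≤ σ := Real.sqrt_nonneg _
  have hσ2 : σ ^ 2 = ∑ j, α j ^ 2 := Real.sq_sqrt (sum_nonneg fun j _ => sq_nonneg _)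
  have hE : 0 ≤ av (fun s => |∑ j, α j * sg s j|) := av_nonneg fun s => abs_nonneg _
  rcases hσ0.eq_or_lt with h0 | h0
  · rw [← h0]
    positivity
  have h1 : av (fun s => σ ^ 2 * (∑ j, α j * sg s j) ^ 2 - (4 / 27) * (∑ j, α j * sg s j) ^ 4) ≤
      av (fun s => σ ^ 3 * |∑ j, α j * sg s j|) := by
    refine av_mono fun s => ?_
    generalize (∑ j, α j * sg s j) = x
    have hy : 0 ≤ |x| := abs_nonneg x
    have h2 : x ^ 2 = |x| ^ 2 := (sq_abs x).symm
    have h4 : x ^ 4 = |x| ^ 4 := by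
      rw [show (4 : ℕ) = 2 * 2 from rfl, pow_mul, pow_mul, h2]
    rw [h2, h4]
    generalize |x| = y at hy
    have : 0 ≤ y * ((y - 3 / 2 * σ) ^ 2 * (y + 3 * σ)) := by positivity
    nlinarith
  rw [av_sub, av_const_mul, av_const_mul, av_const_mul, av_lin_sq, ← hσ2] at h1
  have h2 := av_lin_four α
  rw [← hσ2] at h2
  have h3 : σ ^ 3 * (σ / 2) ≤ σ ^ 3 * av (fun s => |∑ j, α j * sg s j|) := by
    have : 0 ≤ σ ^ 4 := by positivity
    nlinarith
  have h4 := le_of_mul_le_mul_left h3 (by positivity)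
  linarith

end Pool.Agent.Work.MP_5c5849_an
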